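import Pool.Agent.TH340.PS.Ker2

/-!
Averages of the strain.
-/

open MeasureTheory Set Filter Topology
open scoped ContDiff

namespace Pool.Agent.TH340.PS

open H459R3.NS

/-- the average with the weight `(r² - |y|²)³` over the ball with centre `x` and radius `r` -/
noncomputable def mv (r : ℝ) (f : V → ℝ) (x : V) : ℝ :=
  (∫ y, bmp 3 r y)⁻¹ * ∫ y, bmp 3 r y * f (x + y)

/-- the strain `(∂ᵢvⱼ + ∂ⱼvᵢ)/2` -/
noncomputable def str (v : Fin 3 → V → ℝ) (i j : Fin 3) (x : V) : ℝ :=
  (pd i (v j) x + pd j (v i) x) / 2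

theorem sp_str {v : Fin 3 → V → ℝ} (hv : ∀ i, SP (v i)) (i j : Fin 3) : SP (str v i j) where
  smooth := (((hv j).pd i).smooth.add ((hv i).pd j).smooth).div_const 2
  per := fun k x => by
    unfold str
    rw [((hv j).pd i).per k x, ((hv i).pd j).per k x]

theorem int_mv {r : ℝ} {f : V → ℝ} (hf : Continuous f) (x : V) :
    Integrable fun y => bmp 3 r y * f (x + y) :=
  int_bmp 2 r (f := fun y => f (x + y)) (hf.comp (continuous_const.add continuous_id))

theorem mv_add {r : ℝ} {f g : V → ℝ} (hf : Continuous f) (hg : Continuous g) (x : V) :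
    mv r (fun y => f y + g y) x = mv r f x + mv r g x := by
  unfold mv
  rw [← mul_add, ← integral_add (int_mv hf x) (int_mv hg x)]
  congr 2
  funext y
  ring

theorem mv_const_mul (r c : ℝ) (f : V → ℝ) (x : V) :
    mv r (fun y => c * f y) x = c * mv r f x := by
  unfold mv
  have : ∀ y, bmp 3 r y * (c * f (x + y)) = c * (bmp 3 r y * f (x + y)) := fun y => by ring
  simp_rw [this]
  rw [integral_const_mul]
  ring

theorem pd_shift (f : V → ℝ) (x : V) (j : Fin 3) (y : V) :
    pd j (fun y => f (x + y)) y = pd j f (x + y) := by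
  unfold pd
  rw [fderiv_comp_add_left]

/-- the quadratic form of the averaged gradient -/
theorem mv_quad {v : Fin 3 → V → ℝ} (hv : ∀ i, SP (v i)) (r : ℝ) (e x : V) :
    ∑ i, ∑ j, e i * e j * mv r (str v i j) x
      = (∫ y, bmp 3 r y)⁻¹ * ∫ y, bmp 3 r y *
        ∑ i, ∑ j, e i * e j * pd j (fun y => v i (x + y)) y := by
  have h1 : ∀ i j, mv r (str v i j) x = 1 / 2 * mv r (pd i (v j)) x + 1 / 2 * mv r (pd j (v i)) x := by
    intro i j
    have e1 : str v i j = fun y => 1 / 2 * pd i (v j) y + 1 / 2 * pd j (v i) y := by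
      funext y; unfold str; ring
    rw [e1, mv_add (f := fun y => 1 / 2 * pd i (v j) y) (g := fun y => 1 / 2 * pd j (v i) y)
      (continuous_const.mul ((hv j).pd i).cont)
      (continuous_const.mul ((hv i).pd j).cont), mv_const_mul, mv_const_mul]
  have h2 : ∑ i, ∑ j, e i * e j * mv r (str v i j) x
      = ∑ i, ∑ j, e i * e j * mv r (pd j (v i)) x := by
    simp_rw [h1, mul_add, Finset.sum_add_distrib]
    have h3 : ∑ i, ∑ j, e i * e j * (1 / 2 * mv r (pd i (v j)) x)
        = ∑ i, ∑ j, e i * e j * (1 / 2 * mv r (pd j (v i)) x) := by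
      rw [Finset.sum_comm]
      exact Finset.sum_congr rfl fun i _ => Finset.sum_congr rfl fun j _ => by ring
    rw [h3, ← Finset.sum_add_distrib]
    refine Finset.sum_congr rfl fun i _ => ?_
    rw [← Finset.sum_add_distrib]
    exact Finset.sum_congr rfl fun j _ => by ring
  rw [h2]
  unfold mv
  have e3 : ∀ y, bmp 3 r y * ∑ i, ∑ j, e i * e j * pd j (fun y => v i (x + y)) y
      = ∑ i, ∑ j, e i * e j * (bmp 3 r y * pd j (v i) (x + y)) := fun y => by
    rw [Finset.mul_sum]
    refine Finset.sum_congr rfl fun i _ => ?_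
    rw [Finset.mul_sum]
    refine Finset.sum_congr rfl fun j _ => ?_
    rw [pd_shift]; ring
  simp_rw [e3]
  have a1 : ∀ i j, Integrable fun y => e i * e j * (bmp 3 r y * pd j (v i) (x + y)) :=
    fun i j => (int_mv ((hv i).pd j).cont x).const_mul _
  rw [integral_finsetSum _ fun i _ => integrable_finsetSum _ fun j _ => a1 i j, Finset.mul_sum]
  refine Finset.sum_congr rfl fun i _ => ?_
  rw [integral_finsetSum _ fun j _ => a1 i j, Finset.mul_sum]
  refine Finset.sum_congr rfl fun j _ => ?_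
  rw [integral_const_mul]
  ring

theorem mv_trace {v : Fin 3 → V → ℝ} (hv : ∀ i, SP (v i)) (hdiv : ∀ x, ∑ i, pd i (v i) x = 0)
    (r : ℝ) (x : V) : ∑ i, mv r (str v i i) x = 0 := by
  have e1 : ∀ i, mv r (str v i i) x = (∫ y, bmp 3 r y)⁻¹ * ∫ y, bmp 3 r y * pd i (v i) (x + y) := by
    intro i
    unfold mv
    congr 2
    funext y
    unfold str
    ring
  simp_rw [e1]
  rw [← Finset.mul_sum, ← integral_finsetSum _ fun i _ => int_mv ((hv i).pd i).cont x]
  have e2 : ∀ y, ∑ i, bmp 3 r y * pd i (v i) (x + y) = 0 := fun y => by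
    rw [← Finset.mul_sum, hdiv, mul_zero]
  simp_rw [e2]
  simp

theorem mv_str_symm (v : Fin 3 → V → ℝ) (r : ℝ) (i j : Fin 3) (x : V) :
    mv r (str v i j) x = mv r (str v j i) x := by
  have : str v i j = str v j i := by
    funext y; unfold str; ring
  rw [this]

/-- positive semidefinite `2 × 2` forms -/
theorem psd_two {a b c : ℝ} (h : ∀ s t : ℝ, 0 ≤ s ^ 2 * a + 2 * s * t * b + t ^ 2 * c) :
    b ^ 2 ≤ a * c := by
  have ha : 0 ≤ a := by simpa using h 1 0
  have hc : 0 ≤ c := by simpa using h 0 1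
  rcases ha.lt_or_eq with h1 | h1
  · have := h (-b) a
    have h2 : 0 ≤ a * (a * c - b ^ 2) := by nlinarith
    have := nonneg_of_mul_nonneg_right h2 h1
    linarith
  · rcases hc.lt_or_eq with h2 | h2
    · have := h c (-b)
      have h3 : 0 ≤ c * (a * c - b ^ 2) := by nlinarith
      have := nonneg_of_mul_nonneg_right h3 h2
      linarith
    · have p1 := h 1 1
      have p2 := h 1 (-1)
      rw [← h1, ← h2] at p1 p2 ⊢
      have : b = 0 := by linarith
      rw [this]; norm_num

/-- a symmetric matrix with trace zero and one-sided bound -/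
theorem frob_le {F : Fin 3 → Fin 3 → ℝ} (hs : ∀ i j, F i j = F j i) (ht : ∑ i, F i i = 0) {κ : ℝ}
    (h : ∀ e : V, ∑ i, ∑ j, e i * e j * F i j ≤ κ * rho e) :
    ∑ i, ∑ j, F i j ^ 2 ≤ 6 * κ ^ 2 := by
  have s10 := hs 1 0
  have s20 := hs 2 0
  have s21 := hs 2 1
  simp only [Fin.sum_univ_three, rho] at h ht ⊢
  have q1 : F 0 1 ^ 2 ≤ (κ - F 0 0) * (κ - F 1 1) := by
    have : (-F 0 1) ^ 2 ≤ (κ - F 0 0) * (κ - F 1 1) := by
      refine psd_two fun s t => ?_
      have := h ![s, t, 0]
      simp at this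
      rw [s10] at this
      nlinarith
    simpa using this
  have q2 : F 0 2 ^ 2 ≤ (κ - F 0 0) * (κ - F 2 2) := by
    have : (-F 0 2) ^ 2 ≤ (κ - F 0 0) * (κ - F 2 2) := by
      refine psd_two fun s t => ?_
      have := h ![s, 0, t]
      simp at this
      rw [s20] at this
      nlinarith
    simpa using this
  have q3 : F 1 2 ^ 2 ≤ (κ - F 1 1) * (κ - F 2 2) := by
    have : (-F 1 2) ^ 2 ≤ (κ - F 1 1) * (κ - F 2 2) := by
      refine psd_two fun s t => ?_
      have := h ![0, s, t]
      simp at this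
      rw [s21] at this
      nlinarith
    simpa using this
  rw [s10, s20, s21]
  have h22 : F 2 2 = -F 0 0 - F 1 1 := by linarith
  rw [h22] at q2 q3 ⊢
  nlinarith

/-- **Radial velocities control the averaged strain.** If in the ball with centre `x` and radius
`r`, in some Galilean frame, `σ` times the product of the radial velocity and the distance is at
most `ψ` (`σ = 1` or `σ = -1`), then the averaged strain is at most `√6 (9/2) ψ / r²`. -/
theorem mv_str_le {v : Fin 3 → V → ℝ} (hv : ∀ i, SP (v i)) (hdiv : ∀ x, ∑ i, pd i (v i) x = 0)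
    {r : ℝ} (hr : 0 < r) (x a : V) {σ ψ : ℝ} (hσ : σ = 1 ∨ σ = -1)
    (h : ∀ y, rho (y - x) ≤ r ^ 2 → σ * ∑ i, (y i - x i) * (v i y - a i) ≤ ψ) :
    ∑ i, ∑ j, mv r (str v i j) x ^ 2 ≤ 6 * (9 / 2 * (ψ / r ^ 2)) ^ 2 := by
  have hN := int_bmp3_pos hr
  have hσ2 : σ ^ 2 = 1 := by rcases hσ with h | h <;> rw [h] <;> norm_num
  have key : ∑ i, ∑ j, (σ * mv r (str v i j) x) ^ 2 ≤ 6 * (9 / 2 * (ψ / r ^ 2)) ^ 2 := by
    refine frob_le (F := fun i j => σ * mv r (str v i j) x) (fun i j => by
      simp only [mv_str_symm v r i j x]) ?_ fun e => ?_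
    · rw [← Finset.mul_sum, mv_trace hv hdiv, mul_zero]
    · have e1 : ∑ i, ∑ j, e i * e j * (σ * mv r (str v i j) x)
          = σ * ∑ i, ∑ j, e i * e j * mv r (str v i j) x := by
        rw [Finset.mul_sum]
        refine Finset.sum_congr rfl fun i _ => ?_
        rw [Finset.mul_sum]
        exact Finset.sum_congr rfl fun j _ => by ring
      rw [e1, mv_quad hv]
      have h1 := ker_le hr e (w := fun i y => v i (x + y))
        (fun i => ((hv i).smooth.comp (contDiff_const.add contDiff_id)).of_le (by norm_cast))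
        (fun y => by
          simp_rw [pd_shift]
          exact hdiv _) (σ := σ) (ψ := ψ) a (fun y hy => by
          have h2 := h (x + y) (by rwa [add_sub_cancel_left])
          simpa using h2)
      have h2 : σ * ((∫ y, bmp 3 r y)⁻¹ * ∫ y, bmp 3 r y *
          ∑ i, ∑ j, e i * e j * pd j (fun y => v i (x + y)) y)
          = (∫ y, bmp 3 r y)⁻¹ * (σ * ∫ y, bmp 3 r y *
          ∑ i, ∑ j, e i * e j * pd j (fun y => v i (x + y)) y) := by ring
      rw [h2]
      refine (mul_le_mul_of_nonneg_left h1 (inv_nonneg.2 hN.le)).trans (le_of_eq ?_)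
      field_simp
  have e2 : ∀ i j, (σ * mv r (str v i j) x) ^ 2 = mv r (str v i j) x ^ 2 := fun i j => by
    rw [mul_pow, hσ2, one_mul]
  simp_rw [e2] at key
  exact key

end Pool.Agent.TH340.PS
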