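import Pool.Agent.TH340.PS.Low
import Pool.Agent.H459R3.EU.Main

/-!
Osgood condition for the separation of particles: evolution.
-/

open MeasureTheory Set Filter Topology
open scoped ContDiff

namespace Pool.Agent.TH340.PS

open H459R3.NS H459R3.EU

theorem nrm_lap_str {v : Fin 3 → V → ℝ} {s X : ℝ} (hb : BS v s X) (i j : Fin 3) :
    nrm (lap (str v i j)) ≤ 3 * X := by
  have h := nrm_sum_le (f := fun k => pd k (pd k (str v i j)))
    fun k => (((sp_str hb.sp i j).pd k).pd k).cont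
  refine h.trans ?_
  refine (Finset.sum_le_sum fun k _ => nrm_pd_pd_str hb i j k).trans ?_
  simp

/-- bound for the strain at one point -/
theorem str_bound {v : Fin 3 → V → ℝ} {s X : ℝ} (hb : BS v s X)
    (hdiv : ∀ x, ∑ i, pd i (v i) x = 0) {r : ℝ} (hr : 0 < r) (x a : V) {σ ψ : ℝ}
    (hσ : σ = 1 ∨ σ = -1) (hψ : 0 ≤ ψ)
    (h : ∀ y, rho (y - x) ≤ r ^ 2 → σ * ∑ i, (y i - x i) * (v i y - a i) ≤ ψ) :
    Real.sqrt (∑ i, ∑ j, str v i j x ^ 2)
      ≤ 12 * (ψ / r ^ 2) + 54 * Real.sqrt C7 * (r ^ (1 / 4 : ℝ) * X) := by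
  have h1 := mv_str_le hb.sp hdiv hr x a hσ h
  have hX := hb.X0
  set c : ℝ := 18 * Real.sqrt C7 * (r ^ (1 / 4 : ℝ) * X) with hc
  have hc0 : 0 ≤ c := by positivity
  have h2 : ∀ i j, |str v i j x - mv r (str v i j) x| ≤ c := by
    intro i j
    refine (mv_sub_le (sp_str hb.sp i j) x hr).trans ?_
    have h3 := nrm_lap_str hb i j
    calc _ ≤ 6 * Real.sqrt C7 * (r ^ (1 / 4 : ℝ) * (3 * X)) := by gcongr
      _ = c := by rw [hc]; ring
  -- Minkowski in nine dimensions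
  set m : Fin 3 × Fin 3 → ℝ := fun p => mv r (str v p.1 p.2) x with hm
  set q : Fin 3 × Fin 3 → ℝ := fun p => str v p.1 p.2 x - mv r (str v p.1 p.2) x with hq
  have e1 : ∑ i, ∑ j, str v i j x ^ 2 = ∑ p : Fin 3 × Fin 3, (m p + q p) ^ 2 := by
    rw [Fintype.sum_prod_type]
    refine Finset.sum_congr rfl fun i _ => Finset.sum_congr rfl fun j _ => ?_
    simp only [hm, hq]; ring
  have e2 : ∑ i, ∑ j, mv r (str v i j) x ^ 2 = ∑ p : Fin 3 × Fin 3, m p ^ 2 := by
    rw [Fintype.sum_prod_type]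
  have e3 : ∑ p : Fin 3 × Fin 3, q p ^ 2 ≤ (3 * c) ^ 2 := by
    have : ∀ p ∈ (Finset.univ : Finset (Fin 3 × Fin 3)), q p ^ 2 ≤ c ^ 2 := fun p _ => by
      rw [← sq_abs]
      exact pow_le_pow_left₀ (abs_nonneg _) (h2 p.1 p.2) 2
    refine (Finset.sum_le_sum this).trans ?_
    simp
    nlinarith
  rw [e2] at h1
  rw [e1]
  have hM : Real.sqrt (∑ p : Fin 3 × Fin 3, (m p + q p) ^ 2)
      ≤ Real.sqrt (∑ p : Fin 3 × Fin 3, m p ^ 2) + Real.sqrt (∑ p : Fin 3 × Fin 3, q p ^ 2) := by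
    have hcs := Finset.sum_mul_sq_le_sq_mul_sq (Finset.univ : Finset (Fin 3 × Fin 3)) m q
    have hm0 : 0 ≤ ∑ p : Fin 3 × Fin 3, m p ^ 2 := Finset.sum_nonneg fun _ _ => sq_nonneg _
    have hq0 : 0 ≤ ∑ p : Fin 3 × Fin 3, q p ^ 2 := Finset.sum_nonneg fun _ _ => sq_nonneg _
    have hmq : ∑ p : Fin 3 × Fin 3, m p * q p
        ≤ Real.sqrt (∑ p : Fin 3 × Fin 3, m p ^ 2) * Real.sqrt (∑ p : Fin 3 × Fin 3, q p ^ 2) := by
      rw [← Real.sqrt_mul hm0]
      exact (le_abs_self _).trans (Real.abs_le_sqrt hcs)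
    refine Real.sqrt_le_iff.2 ⟨by positivity, ?_⟩
    have e : ∑ p : Fin 3 × Fin 3, (m p + q p) ^ 2 = ∑ p : Fin 3 × Fin 3, m p ^ 2
        + ∑ p : Fin 3 × Fin 3, q p ^ 2 + 2 * ∑ p : Fin 3 × Fin 3, m p * q p := by
      rw [Finset.mul_sum, ← Finset.sum_add_distrib, ← Finset.sum_add_distrib]
      exact Finset.sum_congr rfl fun p _ => by ring
    rw [e]
    have s1 := Real.sq_sqrt hm0
    have s2 := Real.sq_sqrt hq0
    nlinarith
  refine hM.trans ?_
  have k1 : Real.sqrt (∑ p : Fin 3 × Fin 3, m p ^ 2) ≤ 12 * (ψ / r ^ 2) := by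
    refine Real.sqrt_le_iff.2 ⟨by positivity, h1.trans ?_⟩
    have : 0 ≤ (ψ / r ^ 2) ^ 2 := sq_nonneg _
    nlinarith
  have k2 : Real.sqrt (∑ p : Fin 3 × Fin 3, q p ^ 2) ≤ 3 * c :=
    Real.sqrt_le_iff.2 ⟨by positivity, e3⟩
  calc _ ≤ 12 * (ψ / r ^ 2) + 3 * c := add_le_add k1 k2
    _ = _ := by rw [hc]; ring

/-- squared Frobenius norm of the strain -/
noncomputable def strain2 (v : V → V) (x : V) : ℝ :=
  ∑ i, ∑ j, ((pd i (fun y => v y j) x + pd j (fun y => v y i) x) / 2) ^ 2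

/-- the length scale `(1 + ∑ ∫ |∂³v|²)⁻²` -/
noncomputable def scl (v : V → V) : ℝ := ((1 + dsq v) ^ 2)⁻¹

theorem scl_pos (v : V → V) : 0 < scl v := by
  have := dsq_nonneg v
  unfold scl
  positivity

theorem scl_le (v : V → V) : scl v ≤ 1 := by
  have := dsq_nonneg v
  unfold scl
  refine inv_le_one_of_one_le₀ ?_
  nlinarith

/-- `e · ∇v(x) e = ∑ᵢⱼ eᵢ eⱼ ∂ⱼvᵢ(x)`: the relative rate at which the particle at `x` and a near one
in the direction `e` separate -/
noncomputable def rate (v : V → V) (x e : V) : ℝ :=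
  ∑ i, ∑ j, e i * e j * pd j (fun y => v y i) x

/-- Condition at one time for the ball of radius `scl v` about one point, or for one pair of
points at the distance `2 scl v`. -/
def Slow (A b : ℝ) (φ : ℝ → ℝ) (v : V → V) : Prop :=
  (∃ x a : V, (∀ y, strain2 v y ≤ A ^ 2 * strain2 v x) ∧ ∃ σ : ℝ, (σ = 1 ∨ σ = -1) ∧
    ∀ y, rho (y - x) ≤ scl v ^ 2 →
      σ * ∑ i, (y i - x i) * (v y i - a i) ≤ b * (scl v * φ (scl v))) ∨
  (∃ x e : V, rho e = 1 ∧ (∀ y, strain2 v y ≤ A ^ 2 * rate v x e ^ 2) ∧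
    |∑ i, e i * (v (x + scl v • e) i - v (x - scl v • e) i)| ≤ b * (2 * φ (scl v)))

theorem abs_le_of_rho {e : V} (he : rho e = 1) (i : Fin 3) : |e i| ≤ 1 := by
  have h1 : e i ^ 2 ≤ 1 := by
    rw [← he]
    unfold rho
    exact Finset.single_le_sum (f := fun i => e i ^ 2) (fun _ _ => sq_nonneg _)
      (Finset.mem_univ i)
  exact abs_le_one_iff_mul_self_le_one.2 (by nlinarith)

/-- the bound for the rate from one pair of points -/
theorem rate_bound {v : V → V} {s X : ℝ} (hb : BS (fun i y => v y i) s X) {r : ℝ} (hr : 0 < r)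
    {x e : V} (he : rho e = 1) :
    |rate v x e| ≤ |∑ i, e i * (v (x + r • e) i - v (x - r • e) i)| / (2 * r)
      + 162 * Real.sqrt C7 * (r ^ (1 / 4 : ℝ) * X) := by
  set w : Fin 3 → V → ℝ := fun i y => v y i with hw
  have hsp : ∀ i, SP (w i) := hb.sp
  -- the function along the segment
  set g : ℝ → ℝ := fun τ => ∑ i, e i * w i (x + τ • e) with hg
  have hd : ∀ τ : ℝ, HasDerivAt g (rate v (x + τ • e) e) τ := by
    intro τ
    have h1 : ∀ i : Fin 3, HasDerivAt (fun τ : ℝ => w i (x + τ • e))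
        (fderiv ℝ (w i) (x + τ • e) e) τ := by
      intro i
      have h2 : HasDerivAt (fun τ : ℝ => x + τ • e) e τ := by
        simpa using ((hasDerivAt_id τ).smul_const e).const_add x
      exact ((hsp i).smooth.differentiable (by simp) _).hasFDerivAt.comp_hasDerivAt τ h2
    have h3 := HasDerivAt.fun_sum (u := Finset.univ)
      fun (i : Fin 3) (_ : i ∈ Finset.univ) => (h1 i).const_mul (e i)
    refine h3.congr_deriv ?_
    unfold rate
    refine Finset.sum_congr rfl fun i _ => ?_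
    have h4 : e = ∑ j, e j • (Pi.single j (1 : ℝ) : V) := by
      funext k
      simp [Finset.sum_apply, Pi.single_apply]
    conv_lhs => rw [h4]
    rw [map_sum, Finset.mul_sum]
    refine Finset.sum_congr rfl fun j _ => ?_
    rw [map_smul]
    unfold pd
    simp only [smul_eq_mul]
    rw [← h4]
    ring
  obtain ⟨ξ, hξ, hξe⟩ := exists_hasDerivAt_eq_slope g (fun τ => rate v (x + τ • e) e)
    (show -r < r by linarith) (fun τ _ => (hd τ).continuousAt.continuousWithinAt)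
    (fun τ _ => hd τ)
  have e1 : g r - g (-r) = ∑ i, e i * (v (x + r • e) i - v (x - r • e) i) := by
    simp only [hg, hw]
    rw [← Finset.sum_sub_distrib]
    refine Finset.sum_congr rfl fun i _ => ?_
    rw [neg_smul, ← sub_eq_add_neg]
    ring
  have e2 : |rate v (x + ξ • e) e|
      = |∑ i, e i * (v (x + r • e) i - v (x - r • e) i)| / (2 * r) := by
    rw [hξe, e1, abs_div]
    congr 1
    rw [abs_of_pos (by linarith)]
    ring
  -- the rate is given by the strain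
  have e3 : ∀ z, rate v z e = ∑ i, ∑ j, e i * e j * str w i j z := by
    intro z
    unfold rate str
    simp only [Fin.sum_univ_three, hw]
    ring
  have h5 : |rate v (x + ξ • e) e - rate v x e| ≤ 9 * (6 * Real.sqrt C7 * (r ^ (1 / 4 : ℝ)
      * (3 * X))) := by
    rw [e3, e3, ← Finset.sum_sub_distrib]
    refine (Finset.abs_sum_le_sum_abs _ _).trans ?_
    have h6 : ∀ i ∈ (Finset.univ : Finset (Fin 3)), |∑ j, e i * e j * str w i j (x + ξ • e)
        - ∑ j, e i * e j * str w i j x| ≤ 3 * (6 * Real.sqrt C7 * (r ^ (1 / 4 : ℝ)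
        * (3 * X))) := by
      intro i _
      rw [← Finset.sum_sub_distrib]
      refine (Finset.abs_sum_le_sum_abs _ _).trans ?_
      have h7 : ∀ j ∈ (Finset.univ : Finset (Fin 3)), |e i * e j * str w i j (x + ξ • e)
          - e i * e j * str w i j x| ≤ 6 * Real.sqrt C7 * (r ^ (1 / 4 : ℝ) * (3 * X)) := by
        intro j _
        rw [← mul_sub, abs_mul, abs_mul]
        have h8 := holder_le (sp_str hsp i j) x (y := ξ • e) hr.le (fun k => by
          rw [Pi.smul_apply, smul_eq_mul, abs_mul]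
          have := abs_le_of_rho he k
          have h9 : |ξ| ≤ r := abs_le.2 ⟨hξ.1.le, hξ.2.le⟩
          calc |ξ| * |e k| ≤ r * 1 := mul_le_mul h9 this (abs_nonneg _) hr.le
            _ = r := mul_one r)
        have h10 := nrm_lap_str hb i j
        have h11 : |e i| * |e j| ≤ 1 := by
          calc _ ≤ 1 * 1 := mul_le_mul (abs_le_of_rho he i) (abs_le_of_rho he j)
                (abs_nonneg _) (by norm_num)
            _ = 1 := by norm_num
        calc _ ≤ 1 * (6 * Real.sqrt C7 * (r ^ (1 / 4 : ℝ) * nrm (lap (str w i j)))) :=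
              mul_le_mul h11 h8 (abs_nonneg _) (by norm_num)
          _ ≤ _ := by
            rw [one_mul]
            gcongr
      refine (Finset.sum_le_sum h7).trans ?_
      simp
    refine (Finset.sum_le_sum h6).trans (le_of_eq ?_)
    simp
    ring
  rw [← e2]
  have h12 := abs_sub_abs_le_abs_sub (rate v x e) (rate v (x + ξ • e) e)
  rw [abs_sub_comm] at h12
  have hX := hb.X0
  have h13 : 9 * (6 * Real.sqrt C7 * (r ^ (1 / 4 : ℝ) * (3 * X)))
    = 162 * Real.sqrt C7 * (r ^ (1 / 4 : ℝ) * X) := by ring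
  linarith

/-- the product of the Hölder modulus at the scale `scl` and the norm -/
theorem scl_mul_le (v : V → V) : (scl v) ^ (1 / 4 : ℝ) * Real.sqrt (dsq v) ≤ 1 := by
  have hd := dsq_nonneg v
  have e2 : (scl v) ^ (1 / 4 : ℝ) = (Real.sqrt (1 + dsq v))⁻¹ := by
    rw [scl, Real.sqrt_eq_rpow, Real.inv_rpow (by positivity), ← Real.rpow_natCast,
      ← Real.rpow_mul (by positivity)]
    norm_num
  rw [e2, inv_mul_le_iff₀ (by positivity), mul_one]
  exact Real.sqrt_le_sqrt (by linarith)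

theorem bs_of {v : V → V} (hsp : ∀ i, SP (fun y => v y i)) {s : ℝ} (hs : 0 ≤ s)
    (hx : ∀ y, strain2 v y ≤ s ^ 2) :
    BS (fun i y => v y i) s (Real.sqrt (dsq v)) := by
  refine ⟨hsp, fun i j y => ?_, fun l i j k => nrm_le_third v l i j k⟩
  have h1 : str (fun i y => v y i) i j y ^ 2 ≤ strain2 v y :=
    (Finset.single_le_sum (f := fun j => str (fun i y => v y i) i j y ^ 2) (fun _ _ => sq_nonneg _)
      (Finset.mem_univ j)).trans (Finset.single_le_sum
      (f := fun i => ∑ j, str (fun i y => v y i) i j y ^ 2)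
      (fun _ _ => Finset.sum_nonneg fun _ _ => sq_nonneg _) (Finset.mem_univ i))
  exact abs_le_of_sq_le_sq (h1.trans (hx y)) hs

/-- the strain is bounded everywhere -/
theorem slow_strain {v : V → V} (hsp : ∀ i, SP (fun y => v y i))
    (hdiv : ∀ x, ∑ i, pd i (fun y => v y i) x = 0) {A b : ℝ} (hA : 0 ≤ A) (hb : 0 ≤ b)
    {φ : ℝ → ℝ} (hφ : 0 ≤ φ (scl v)) (h : Slow A b φ v) :
    ∃ s : ℝ, 0 ≤ s ∧ (∀ y, strain2 v y ≤ s ^ 2) ∧
      s ≤ (12 + 162 * Real.sqrt C7) * A * (1 + b * (φ (scl v) / scl v)) := by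
  have hC := Real.sqrt_nonneg C7
  have hr0 : 0 < scl v := scl_pos _
  have hβ : 0 ≤ b * (φ (scl v) / scl v) := by positivity
  have hrX := scl_mul_le v
  have hss0 : ∀ y, 0 ≤ strain2 v y := fun y =>
    Finset.sum_nonneg fun _ _ => Finset.sum_nonneg fun _ _ => sq_nonneg _
  rcases h with ⟨x, a, hx, σ, hσ, hc⟩ | ⟨x, e, he, hx, hc⟩
  · set S := Real.sqrt (strain2 v x) with hS
    have hS0 : 0 ≤ S := Real.sqrt_nonneg _
    have hS2 : S ^ 2 = strain2 v x := Real.sq_sqrt (hss0 x)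
    have hx' : ∀ y, strain2 v y ≤ (A * S) ^ 2 := fun y => by
      rw [mul_pow, hS2]; exact hx y
    refine ⟨A * S, by positivity, hx', ?_⟩
    have hb' := bs_of hsp (mul_nonneg hA hS0) hx'
    have k1 := str_bound hb' hdiv hr0 x a hσ (ψ := b * (scl v * φ (scl v))) (by positivity) hc
    have e1 : ∑ i, ∑ j, str (fun i y => v y i) i j x ^ 2 = strain2 v x := rfl
    have e2 : b * (scl v * φ (scl v)) / scl v ^ 2 = b * (φ (scl v) / scl v) := by
      field_simp
    rw [e1, ← hS, e2] at k1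
    have k2 : S ≤ (12 + 162 * Real.sqrt C7) * (1 + b * (φ (scl v) / scl v)) := by
      have : 54 * Real.sqrt C7 * (scl v ^ (1 / 4 : ℝ) * Real.sqrt (dsq v))
          ≤ 54 * Real.sqrt C7 * 1 := mul_le_mul_of_nonneg_left hrX (by positivity)
      nlinarith [mul_nonneg hC hβ]
    calc A * S ≤ A * ((12 + 162 * Real.sqrt C7) * (1 + b * (φ (scl v) / scl v))) := by gcongr
      _ = _ := by ring
  · have hx' : ∀ y, strain2 v y ≤ (A * |rate v x e|) ^ 2 := fun y => by
      rw [mul_pow, sq_abs]; exact hx y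
    refine ⟨A * |rate v x e|, by positivity, hx', ?_⟩
    have hb' := bs_of hsp (mul_nonneg hA (abs_nonneg _)) hx'
    have k1 := rate_bound hb' hr0 (x := x) he
    have k3 : |∑ i, e i * (v (x + scl v • e) i - v (x - scl v • e) i)| / (2 * scl v)
        ≤ b * (φ (scl v) / scl v) := by
      rw [div_le_iff₀ (by positivity)]
      refine hc.trans (le_of_eq ?_)
      field_simp
    have k2 : |rate v x e| ≤ (12 + 162 * Real.sqrt C7) * (1 + b * (φ (scl v) / scl v)) := by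
      have : 162 * Real.sqrt C7 * (scl v ^ (1 / 4 : ℝ) * Real.sqrt (dsq v))
          ≤ 162 * Real.sqrt C7 * 1 := mul_le_mul_of_nonneg_left hrX (by positivity)
      nlinarith [mul_nonneg hC hβ]
    calc A * |rate v x e|
        ≤ A * ((12 + 162 * Real.sqrt C7) * (1 + b * (φ (scl v) / scl v))) := by gcongr
      _ = _ := by ring

/-- the growth of the third derivatives at one time -/
theorem growth {ν T : ℝ} (hν : 0 ≤ ν) {u : ℝ → V → V} {p : ℝ → V → ℝ} (h : IsSol ν T u p)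
    {t : ℝ} (ht : t ∈ Ioo 0 T) {A b : ℝ} (hA : 0 ≤ A) (hb : 0 ≤ b)
    {φ : ℝ → ℝ} (hφ : 0 ≤ φ (scl (u t))) (hc : Slow A b φ (u t)) :
    -(2 * ν * fourth (fun i y => u t y i)) - 2 * Q3 (cv (fun i y => u t y i)
        (fun i y => u t y i)) (fun i y => u t y i)
      ≤ 41310 * ((12 + 162 * Real.sqrt C7) * A * (1 + b * (φ (scl (u t)) / scl (u t))))
        * dsq (u t) := by
  have hI : t ∈ Ico 0 T := ⟨ht.1.le, ht.2⟩
  obtain ⟨s, hs, hx, hle⟩ := slow_strain (fun i => h.sp hI i) (h.divfree t hI) hA hb hφ hc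
  have k3 := Q3_le (bs_of (fun i => h.sp hI i) hs hx) (h.divfree t hI)
  have k4 := (abs_le.1 k3).1
  have hd := dsq_nonneg (u t)
  rw [Real.sq_sqrt hd] at k4
  have f0 : 0 ≤ 2 * ν * fourth (fun i y => u t y i) :=
    mul_nonneg (by positivity) (fourth_nonneg _)
  have k5 : s * dsq (u t) ≤ (12 + 162 * Real.sqrt C7) * A
      * (1 + b * (φ (scl (u t)) / scl (u t))) * dsq (u t) := by
    gcongr
  linarith

/-- the scale at time `t` -/
theorem scl_hasDerivAt {ν T : ℝ} {u : ℝ → V → V} {p : ℝ → V → ℝ} (h : IsSol ν T u p) {t : ℝ}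
    (ht : t ∈ Ioo 0 T) :
    HasDerivAt (fun s => scl (u s)) (-(2 * (1 + dsq (u t)) *
      (-(2 * ν * fourth (fun i y => u t y i)) - 2 * Q3 (cv (fun i y => u t y i)
        (fun i y => u t y i)) (fun i y => u t y i))) / ((1 + dsq (u t)) ^ 2) ^ 2) t := by
  have h1 := (dsq_hasDerivAt h ht).const_add 1
  have h2 := h1.pow 2
  have hd := dsq_nonneg (u t)
  have hp : 0 < 1 + dsq (u t) := by linarith
  have h3 := h2.inv (pow_pos hp 2).ne'
  unfold scl
  refine h3.congr_deriv ?_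
  simp

theorem scl_deriv_le {ν T : ℝ} (hν : 0 ≤ ν) {u : ℝ → V → V} {p : ℝ → V → ℝ} (h : IsSol ν T u p)
    {t : ℝ} (ht : t ∈ Ioo 0 T) {A b : ℝ} (hA : 0 ≤ A) {φ : ℝ → ℝ}
    (hφ : ∀ r ∈ Ioc (0 : ℝ) 1, r ≤ φ r) (hb : 0 ≤ b) (hc : Slow A b φ (u t)) :
    -(-(2 * (1 + dsq (u t)) *
      (-(2 * ν * fourth (fun i y => u t y i)) - 2 * Q3 (cv (fun i y => u t y i)
        (fun i y => u t y i)) (fun i y => u t y i))) / ((1 + dsq (u t)) ^ 2) ^ 2)
      ≤ 82620 * (12 + 162 * Real.sqrt C7) * A * (1 + b) * φ (scl (u t)) := by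
  set r := scl (u t) with hr
  have hr0 : 0 < r := scl_pos _
  have hr1 : r ≤ 1 := scl_le _
  have hφr := hφ r ⟨hr0, hr1⟩
  have hφ0 : 0 < φ r := hr0.trans_le hφr
  have k := growth hν h ht hA hb hφ0.le hc
  rw [← hr] at k
  set D := (-(2 * ν * fourth (fun i y => u t y i)) - 2 * Q3 (cv (fun i y => u t y i)
        (fun i y => u t y i)) (fun i y => u t y i)) with hD
  have hd := dsq_nonneg (u t)
  have hC := Real.sqrt_nonneg C7
  set K := 41310 * ((12 + 162 * Real.sqrt C7) * A) with hK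
  have hK0 : 0 ≤ K := by positivity
  have e2 : -(-(2 * (1 + dsq (u t)) * D) / ((1 + dsq (u t)) ^ 2) ^ 2)
      = 2 * D * (r / (1 + dsq (u t))) := by
    rw [hr, scl]
    field_simp
  rw [e2]
  have hq : 0 ≤ r / (1 + dsq (u t)) := by positivity
  have k' : D ≤ K * (1 + b * (φ r / r)) * dsq (u t) := by
    refine k.trans (le_of_eq ?_)
    rw [hK]; ring
  have k2 : 2 * D * (r / (1 + dsq (u t)))
      ≤ 2 * (K * (1 + b * (φ r / r)) * dsq (u t)) * (r / (1 + dsq (u t))) := by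
    gcongr
  have k3 : 2 * (K * (1 + b * (φ r / r)) * dsq (u t)) * (r / (1 + dsq (u t)))
      = 2 * K * (r + b * φ r) * (dsq (u t) / (1 + dsq (u t))) := by
    field_simp
  have k4 : dsq (u t) / (1 + dsq (u t)) ≤ 1 := by
    rw [div_le_one (by positivity)]
    linarith
  have k5 : 2 * K * (r + b * φ r) * (dsq (u t) / (1 + dsq (u t))) ≤ 2 * K * (r + b * φ r) * 1 :=
    mul_le_mul_of_nonneg_left k4 (by positivity)
  have k6 : 2 * K * (r + b * φ r) ≤ 2 * K * ((1 + b) * φ r) := by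
    gcongr
    linarith
  calc _ ≤ 2 * K * ((1 + b) * φ r) := by linarith
    _ = _ := by rw [hK]; ring

/-- The Osgood function with the modulus `φ (min z 1)` -/
theorem osg_hasDerivAt {φ : ℝ → ℝ} (hc : ContinuousOn φ (Ioc 0 1))
    (hφ : ∀ r ∈ Ioc (0 : ℝ) 1, r ≤ φ r) {z : ℝ} (hz : 0 < z) :
    HasDerivAt (fun z => ∫ w in z..1, 1 / φ (min w 1)) (-(1 / φ (min z 1))) z := by
  have hc' : ContinuousOn (fun w => 1 / φ (min w 1)) (Ioi 0) := by
    refine continuousOn_const.div (hc.comp (continuous_id.min continuous_const).continuousOn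
      fun w hw => ⟨lt_min hw one_pos, min_le_right _ _⟩) fun w hw => ?_
    exact ((lt_min hw one_pos).trans_le (hφ _ ⟨lt_min hw one_pos, min_le_right _ _⟩)).ne'
  have hint : IntervalIntegrable (fun w => 1 / φ (min w 1)) volume z 1 := by
    refine (hc'.mono fun w hw => ?_).intervalIntegrable
    exact (lt_min hz one_pos).trans_le hw.1
  have hsm : StronglyMeasurableAtFilter (fun w => 1 / φ (min w 1)) (𝓝 z) :=
    hc'.stronglyMeasurableAtFilter isOpen_Ioi z hz
  exact intervalIntegral.integral_hasDerivAt_left hint hsm (hc'.continuousAt (Ioi_mem_nhds hz))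

theorem scl_continuousOn {ν T : ℝ} {u : ℝ → V → V} {p : ℝ → V → ℝ} (h : IsSol ν T u p) :
    ContinuousOn (fun s => scl (u s)) (Ico 0 T) := by
  unfold scl
  refine ((continuousOn_const.add (dsq_continuousOn h)).pow 2).inv₀ fun s _ => ?_
  have := dsq_nonneg (u s)
  have hp : 0 < 1 + dsq (u s) := by linarith
  exact (pow_pos hp 2).ne'

/-- The a priori inequality. -/
theorem osgood {ν T T₀ A : ℝ} (hν : 0 ≤ ν) (hT₀ : 0 ≤ T₀) (hA : 0 ≤ A) {u : ℝ → V → V}
    {p : ℝ → V → ℝ} (h : IsSol ν T u p) {φ B : ℝ → ℝ} (hφc : ContinuousOn φ (Ioc 0 1))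
    (hφ : ∀ r ∈ Ioc (0 : ℝ) 1, r ≤ φ r) (hB : IntegrableOn B (Ioo T₀ T))
    (hB0 : ∀ t ∈ Ioo T₀ T, 0 ≤ B t)
    (hc : ∀ t ∈ Ioo T₀ T, Slow A (B t) φ (u t))
    {s t : ℝ} (hs : T₀ ≤ s) (hst : s ≤ t) (ht : t < T) :
    ∫ z in (scl (u t))..(scl (u s)), 1 / φ z
      ≤ 82620 * (12 + 162 * Real.sqrt C7) * A * ∫ τ in s..t, (1 + B τ) := by
  set K := 82620 * (12 + 162 * Real.sqrt C7) * A with hK
  have hK0 : 0 ≤ K := by positivity
  set F : ℝ → ℝ := fun z => ∫ w in z..1, 1 / φ (min w 1) with hF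
  have hsub : Icc s t ⊆ Ico 0 T := fun τ hτ => ⟨hT₀.trans (hs.trans hτ.1), hτ.2.trans_lt ht⟩
  have hFc : ContinuousOn (fun τ => F (scl (u τ))) (Icc s t) := by
    intro τ hτ
    have h1 : ContinuousAt F (scl (u τ)) := (osg_hasDerivAt hφc hφ (scl_pos _)).continuousAt
    exact ContinuousAt.comp_continuousWithinAt (g := F) (f := fun τ => scl (u τ)) h1
      (((scl_continuousOn h).mono hsub) τ hτ)
  have hg : IntegrableOn (fun τ => K * (1 + B τ)) (Icc s t) := by
    rw [integrableOn_Icc_iff_integrableOn_Ioc, integrableOn_Ioc_iff_integrableOn_Ioo]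
    refine Integrable.const_mul ?_ K
    exact (integrableOn_const (by simp)).add (hB.mono_set (Ioo_subset_Ioo hs ht.le))
  have key := intervalIntegral.sub_le_integral_of_hasDeriv_right_of_le hst hFc
    (g' := fun τ => -(1 / φ (min (scl (u τ)) 1)) * (-(2 * (1 + dsq (u τ)) *
      (-(2 * ν * fourth (fun i y => u τ y i)) - 2 * Q3 (cv (fun i y => u τ y i)
        (fun i y => u τ y i)) (fun i y => u τ y i))) / ((1 + dsq (u τ)) ^ 2) ^ 2))
    (fun τ hτ => ?_) hg (fun τ hτ => ?_)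
  · simp only [hF] at key
    have hint : ∀ z : ℝ, 0 < z → IntervalIntegrable (fun w => 1 / φ (min w 1)) volume z 1 := by
      intro z hz
      have hc' : ContinuousOn (fun w => 1 / φ (min w 1)) (Ioi 0) := by
        refine continuousOn_const.div (hφc.comp (continuous_id.min continuous_const).continuousOn
          fun w hw => ⟨lt_min hw one_pos, min_le_right _ _⟩) fun w hw => ?_
        exact ((lt_min hw one_pos).trans_le (hφ _ ⟨lt_min hw one_pos, min_le_right _ _⟩)).ne'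
      refine (hc'.mono fun w hw => ?_).intervalIntegrable
      exact (lt_min hz one_pos).trans_le hw.1
    have hadd := intervalIntegral.integral_add_adjacent_intervals
      ((hint _ (scl_pos (u t))).trans (hint _ (scl_pos (u s))).symm) (hint _ (scl_pos (u s)))
    rw [← hadd, add_sub_cancel_right, intervalIntegral.integral_const_mul] at key
    refine le_trans (le_of_eq ?_) key
    refine intervalIntegral.integral_congr fun w hw => ?_
    have : w ≤ 1 := hw.2.trans (max_le (scl_le _) (scl_le _))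
    rw [min_eq_left this]
  · have hτ' : τ ∈ Ioo 0 T := ⟨hT₀.trans_lt (hs.trans_lt hτ.1), hτ.2.trans ht⟩
    have h1 := osg_hasDerivAt hφc hφ (scl_pos (u τ))
    exact (h1.comp τ (scl_hasDerivAt h hτ')).hasDerivWithinAt
  · have hτ' : τ ∈ Ioo 0 T := ⟨hT₀.trans_lt (hs.trans_lt hτ.1), hτ.2.trans ht⟩
    have hτ'' : τ ∈ Ioo T₀ T := ⟨hs.trans_lt hτ.1, hτ.2.trans ht⟩
    have k := scl_deriv_le hν h hτ' hA hφ (hB0 τ hτ'') (hc τ hτ'')
    rw [← hK] at k
    have hr : scl (u τ) ∈ Ioc (0 : ℝ) 1 := ⟨scl_pos _, scl_le _⟩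
    have hφ0 : 0 < φ (scl (u τ)) := hr.1.trans_le (hφ _ hr)
    rw [min_eq_left hr.2]
    rw [neg_mul_comm, one_div, inv_mul_le_iff₀ hφ0]
    linarith

theorem intervalIntegrable_osg {φ : ℝ → ℝ} (hφc : ContinuousOn φ (Ioc 0 1))
    (hφ : ∀ r ∈ Ioc (0 : ℝ) 1, r ≤ φ r) {a b : ℝ} (ha : a ∈ Ioc (0 : ℝ) 1)
    (hb : b ∈ Ioc (0 : ℝ) 1) : IntervalIntegrable (fun r => 1 / φ r) volume a b := by
  refine ContinuousOn.intervalIntegrable ?_
  have hsub : uIcc a b ⊆ Ioc 0 1 := fun z hz =>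
    ⟨(lt_min ha.1 hb.1).trans_le hz.1, hz.2.trans (max_le ha.2 hb.2)⟩
  exact continuousOn_const.div (hφc.mono hsub) fun z hz =>
    ((hsub hz).1.trans_le (hφ z (hsub hz))).ne'

/-- Boundedness for an Osgood modulus. -/
theorem bounded {ν T T₀ A : ℝ} (hν : 0 ≤ ν) (hT₀ : 0 ≤ T₀) (hT : T₀ < T) (hA : 0 ≤ A)
    {u : ℝ → V → V} {p : ℝ → V → ℝ} (h : IsSol ν T u p) {φ B : ℝ → ℝ}
    (hφc : ContinuousOn φ (Ioc 0 1))
    (hφ : ∀ r ∈ Ioc (0 : ℝ) 1, r ≤ φ r) (hB : IntegrableOn B (Ioo T₀ T))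
    (hB0 : ∀ t ∈ Ioo T₀ T, 0 ≤ B t) (hc : ∀ t ∈ Ioo T₀ T, Slow A (B t) φ (u t))
    (hni : ¬ IntegrableOn (fun r => 1 / φ r) (Ioc 0 1)) :
    ∃ M : ℝ, ∀ t ∈ Ico 0 T, dsq (u t) ≤ M := by
  have hpos : ∀ r ∈ Ioc (0 : ℝ) 1, 0 ≤ 1 / φ r := fun r hr =>
    one_div_nonneg.2 (hr.1.le.trans (hφ r hr))
  set K := 82620 * (12 + 162 * Real.sqrt C7) * A with hK
  have hK0 : 0 ≤ K := by positivity
  have hB1 : IntegrableOn (fun τ => 1 + B τ) (Ioo T₀ T) :=
    (integrableOn_const (by simp)).add hB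
  set L := K * ∫ τ in T₀..T, (1 + B τ) with hL
  have hS0 : scl (u T₀) ∈ Ioc (0 : ℝ) 1 := ⟨scl_pos _, scl_le _⟩
  -- bound of the Osgood integral
  have h1 : ∀ t, T₀ ≤ t → t < T → ∫ z in (scl (u t))..(scl (u T₀)), 1 / φ z ≤ L := by
    intro t ht1 ht2
    refine (osgood hν hT₀ hA h hφc hφ hB hB0 hc le_rfl ht1 ht2).trans ?_
    rw [← hK, hL]
    refine mul_le_mul_of_nonneg_left ?_ hK0
    refine intervalIntegral.integral_mono_interval le_rfl ht1 ht2.le ?_ ?_
    · refine (ae_restrict_iff' measurableSet_Ioc).2 ?_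
      have : ∀ᵐ τ : ℝ, τ ≠ T := by simp [ae_iff, measure_singleton]
      filter_upwards [this] with τ hτ hτ'
      have := hB0 τ ⟨hτ'.1, lt_of_le_of_ne hτ'.2 hτ⟩
      show (0 : ℝ) ≤ 1 + B τ
      linarith
    · rw [intervalIntegrable_iff_integrableOn_Ioo_of_le hT.le]
      exact hB1
  -- some lower bound for the scale
  obtain ⟨ε, hε0, hε1, hε⟩ : ∃ ε, 0 < ε ∧ ε ≤ scl (u T₀) ∧
      L < ∫ z in ε..(scl (u T₀)), 1 / φ z := by
    by_contra hcon
    push Not at hcon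
    apply hni
    have h2 : IntegrableOn (fun r => 1 / φ r) (Ioc 0 (scl (u T₀))) := by
      have hseq : Tendsto (fun n : ℕ => scl (u T₀) / ((n : ℝ) + 1)) atTop (𝓝 0) := by
        have := tendsto_one_div_add_atTop_nhds_zero_nat (𝕜 := ℝ)
        have h3 := this.const_mul (scl (u T₀))
        rw [mul_zero] at h3
        refine h3.congr fun n => ?_
        rw [mul_one_div]
      have hn0 : ∀ n : ℕ, 0 < scl (u T₀) / ((n : ℝ) + 1) := fun n => by
        have := hS0.1
        positivity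
      have hn1 : ∀ n : ℕ, scl (u T₀) / ((n : ℝ) + 1) ≤ scl (u T₀) := fun n =>
        div_le_self hS0.1.le (by
          have : (0 : ℝ) ≤ n := Nat.cast_nonneg n
          linarith)
      refine integrableOn_Ioc_of_intervalIntegral_norm_bounded_left (l := atTop) (I := L)
        (a := fun n : ℕ => scl (u T₀) / ((n : ℝ) + 1)) (fun n => ?_) hseq ?_
      · have := intervalIntegrable_osg hφc hφ (a := scl (u T₀) / ((n : ℝ) + 1))
          (b := scl (u T₀)) ⟨hn0 n, (hn1 n).trans hS0.2⟩ hS0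
        rwa [intervalIntegrable_iff_integrableOn_Ioc_of_le (hn1 n)] at this
      · refine Eventually.of_forall fun n => ?_
        have h4 := hcon _ (hn0 n) (hn1 n)
        rw [intervalIntegral.integral_of_le (hn1 n)] at h4
        refine le_trans (le_of_eq ?_) h4
        refine setIntegral_congr_fun measurableSet_Ioc fun z hz => ?_
        exact Real.norm_of_nonneg (hpos z ⟨(hn0 n).trans hz.1, hz.2.trans hS0.2⟩)
    have h5 : IntegrableOn (fun r => 1 / φ r) (Ioc (scl (u T₀)) 1) := by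
      have := intervalIntegrable_osg hφc hφ hS0 (b := 1) ⟨one_pos, le_rfl⟩
      rwa [intervalIntegrable_iff_integrableOn_Ioc_of_le hS0.2] at this
    have h6 := h2.union h5
    rwa [Ioc_union_Ioc_eq_Ioc hS0.1.le hS0.2] at h6
  have hlow : ∀ t, T₀ ≤ t → t < T → ε ≤ scl (u t) := by
    intro t ht1 ht2
    by_contra hcon
    push Not at hcon
    have hSt : scl (u t) ∈ Ioc (0 : ℝ) 1 := ⟨scl_pos _, scl_le _⟩
    have hεI : ε ∈ Ioc (0 : ℝ) 1 := ⟨hε0, hε1.trans hS0.2⟩
    have h2 := intervalIntegral.integral_add_adjacent_intervals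
      (intervalIntegrable_osg hφc hφ hSt hεI) (intervalIntegrable_osg hφc hφ hεI hS0)
    have h3 : 0 ≤ ∫ z in (scl (u t))..ε, 1 / φ z :=
      intervalIntegral.integral_nonneg hcon.le fun z hz =>
        hpos z ⟨hSt.1.trans_le hz.1, hz.2.trans hεI.2⟩
    have h4 := h1 t ht1 ht2
    linarith
  obtain ⟨M₁, hM₁⟩ : ∃ M₁, ∀ t ∈ Icc 0 T₀, dsq (u t) ≤ M₁ := by
    have hcp : IsCompact (Icc (0 : ℝ) T₀) := isCompact_Icc
    have hco : ContinuousOn (fun t => dsq (u t)) (Icc 0 T₀) :=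
      (dsq_continuousOn h).mono fun τ hτ => ⟨hτ.1, hτ.2.trans_lt hT⟩
    obtain ⟨M₁, hM₁⟩ := (hcp.image_of_continuousOn hco).bddAbove
    exact ⟨M₁, fun t ht => hM₁ ⟨t, ht, rfl⟩⟩
  refine ⟨max M₁ ε⁻¹, fun t ht => ?_⟩
  rcases le_total t T₀ with h7 | h7
  · exact (hM₁ t ⟨ht.1, h7⟩).trans (le_max_left _ _)
  · refine le_trans ?_ (le_max_right _ _)
    have h8 := hlow t h7 ht.2
    have hd := dsq_nonneg (u t)
    unfold scl at h8
    have h9 : (1 + dsq (u t)) ^ 2 ≤ ε⁻¹ := by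
      have := inv_anti₀ hε0 h8
      rwa [inv_inv] at this
    nlinarith

end Pool.Agent.TH340.PS
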