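import Pool.Agent.H459R3.NS.Ibp

/-!
The average of the strain over a ball, weighted with `(r² - |y|²)³`, in terms of the radial
velocities in the ball.
-/

open MeasureTheory Set Filter Topology
open scoped ContDiff

namespace Pool.Agent.TH340.PS

open H459R3.NS

/-- square of the Euclidean norm -/
noncomputable def rho (y : V) : ℝ := ∑ i, y i ^ 2

theorem rho_nonneg (y : V) : 0 ≤ rho y := Finset.sum_nonneg fun _ _ => sq_nonneg _

theorem rho_neg (y : V) : rho (-y) = rho y := by simp [rho]

theorem sq_le_rho (y : V) (i : Fin 3) : y i ^ 2 ≤ rho y :=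
  Finset.single_le_sum (f := fun i => y i ^ 2) (fun _ _ => sq_nonneg _) (Finset.mem_univ i)

theorem rho_contDiff : ContDiff ℝ ∞ rho := by
  unfold rho
  fun_prop

theorem rho_cont : Continuous rho := rho_contDiff.continuous

theorem pd_rho (j : Fin 3) (y : V) : pd j rho y = 2 * y j := by
  unfold pd rho
  have h : HasFDerivAt (fun y : V => ∑ i, y i ^ 2)
      (∑ i, (2 * y i) • (ContinuousLinearMap.proj i : V →L[ℝ] ℝ)) y := by
    refine HasFDerivAt.fun_sum fun i _ => ?_
    have h1 : HasFDerivAt (fun y : V => y i) (ContinuousLinearMap.proj i : V →L[ℝ] ℝ) y :=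
      (ContinuousLinearMap.proj (R := ℝ) (φ := fun _ : Fin 3 => ℝ) i).hasFDerivAt
    have h2 := h1.pow 2
    simpa using h2
  rw [h.fderiv]
  simp [Pi.single_apply]

/-- derivative of a power of the positive part -/
theorem hasDerivAt_maxpow (n : ℕ) (s : ℝ) :
    HasDerivAt (fun s : ℝ => max s 0 ^ (n + 2)) ((n + 2 : ℕ) * max s 0 ^ (n + 1)) s := by
  rcases lt_trichotomy s 0 with h | h | h
  · have e : (fun s : ℝ => max s 0 ^ (n + 2)) =ᶠ[𝓝 s] fun _ => 0 := by
      filter_upwards [gt_mem_nhds h] with t ht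
      rw [max_eq_right ht.le, zero_pow (by omega)]
    rw [max_eq_right h.le, zero_pow (by omega), mul_zero]
    exact (hasDerivAt_const s (0 : ℝ)).congr_of_eventuallyEq e
  · subst h
    rw [max_self, zero_pow (by omega), mul_zero, hasDerivAt_iff_isLittleO_nhds_zero]
    simp only [zero_add, max_self, smul_zero, sub_zero]
    rw [zero_pow (by omega : n + 2 ≠ 0)]
    simp only [sub_zero]
    have h1 : (fun h : ℝ => max h 0 ^ (n + 2)) =O[𝓝 0] fun h => h ^ (n + 2) := by
      refine Asymptotics.IsBigO.of_bound 1 (Eventually.of_forall fun t => ?_)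
      rw [one_mul, norm_pow, norm_pow]
      gcongr
      rw [Real.norm_eq_abs, Real.norm_eq_abs]
      rcases le_total t 0 with h | h
      · rw [max_eq_right h, abs_zero]; exact abs_nonneg _
      · rw [max_eq_left h]
    refine h1.trans_isLittleO ?_
    have := Asymptotics.isLittleO_pow_id (𝕜 := ℝ) (n := n + 2) (by omega)
    exact this
  · have e : (fun s : ℝ => max s 0 ^ (n + 2)) =ᶠ[𝓝 s] fun t => t ^ (n + 2) := by
      filter_upwards [lt_mem_nhds h] with t ht
      rw [max_eq_left (le_of_lt ht)]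
    rw [max_eq_left h.le]
    have := (hasDerivAt_pow (n + 2) s)
    refine HasDerivAt.congr_of_eventuallyEq ?_ e
    simpa using this

/-- the weight `(r² - |y|²)₊ ^ n` -/
noncomputable def bmp (n : ℕ) (r : ℝ) (y : V) : ℝ := max (r ^ 2 - rho y) 0 ^ n

theorem bmp_cont (n : ℕ) (r : ℝ) : Continuous (bmp n r) := by
  unfold bmp
  exact ((continuous_const.sub rho_cont).max continuous_const).pow n

theorem bmp_nonneg (n : ℕ) (r : ℝ) (y : V) : 0 ≤ bmp n r y := pow_nonneg (le_max_right _ _) n

theorem bmp_neg (n : ℕ) (r : ℝ) (y : V) : bmp n r (-y) = bmp n r y := by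
  unfold bmp; rw [rho_neg]

theorem bmp_zero {n : ℕ} {r : ℝ} {y : V} (h : r ^ 2 ≤ rho y) : bmp (n + 1) r y = 0 := by
  unfold bmp
  rw [max_eq_right (by linarith), zero_pow (by omega)]

theorem bmp_compact (n : ℕ) (r : ℝ) : HasCompactSupport (bmp (n + 1) r) := by
  refine HasCompactSupport.of_support_subset_isCompact (K := Icc (fun _ => -|r|) fun _ => |r|)
    isCompact_Icc ?_
  intro y hy
  rw [Function.mem_support] at hy
  have h1 : rho y < r ^ 2 := by
    by_contra h
    exact hy (bmp_zero (not_lt.1 h))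
  have h2 : ∀ i, |y i| ≤ |r| := fun i => by
    refine sq_le_sq.1 ?_
    exact ((sq_le_rho y i).trans_lt h1).le
  exact ⟨fun i => (abs_le.1 (h2 i)).1, fun i => (abs_le.1 (h2 i)).2⟩

theorem bmp_hasFDerivAt (n : ℕ) (r : ℝ) (y : V) :
    HasFDerivAt (bmp (n + 2) r)
      ((((n + 2 : ℕ) : ℝ) * max (r ^ 2 - rho y) 0 ^ (n + 1)) • (-fderiv ℝ rho y)) y := by
  have h1 : HasFDerivAt rho (fderiv ℝ rho y) y :=
    ((rho_contDiff.differentiable (by simp)) y).hasFDerivAt
  have h2 : HasFDerivAt (fun y => r ^ 2 - rho y) (-fderiv ℝ rho y) y := h1.const_sub (r ^ 2)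
  exact (hasDerivAt_maxpow n (r ^ 2 - rho y)).comp_hasFDerivAt y h2

theorem bmp_diff (n : ℕ) (r : ℝ) : Differentiable ℝ (bmp (n + 2) r) := fun y =>
  (bmp_hasFDerivAt n r y).differentiableAt

theorem pd_bmp (n : ℕ) (r : ℝ) (j : Fin 3) (y : V) :
    pd j (bmp (n + 2) r) y = -(2 * (n + 2 : ℕ)) * (y j * bmp (n + 1) r y) := by
  have h := pd_rho j y
  unfold pd at h ⊢
  rw [(bmp_hasFDerivAt n r y).fderiv]
  simp only [smul_apply, neg_apply, smul_eq_mul, h]
  unfold bmp
  ring

/-- the integral of a derivative of a `C¹` function times the weight -/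
theorem ibp_bmp (n : ℕ) (r : ℝ) {f : V → ℝ} (hf : ContDiff ℝ 1 f) (j : Fin 3) :
    ∫ y, bmp (n + 2) r y * pd j f y = 2 * (n + 2 : ℕ) * ∫ y, bmp (n + 1) r y * (y j * f y) := by
  have hpc : Continuous (pd j f) := (hf.continuous_fderiv one_ne_zero).clm_apply continuous_const
  have hpb : Continuous (pd j (bmp (n + 2) r)) := by
    have : pd j (bmp (n + 2) r) = fun y => -(2 * (n + 2 : ℕ)) * (y j * bmp (n + 1) r y) :=
      funext fun y => pd_bmp n r j y
    rw [this]
    exact continuous_const.mul ((continuous_apply j).mul (bmp_cont _ _))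
  have c1 : HasCompactSupport (pd j (bmp (n + 2) r)) := by
    have : pd j (bmp (n + 2) r) = fun y => (-(2 * (n + 2 : ℕ)) * y j) * bmp (n + 1) r y :=
      funext fun y => by rw [pd_bmp n r j y]; ring
    rw [this]
    exact (bmp_compact n r).mul_left
  have h := integral_mul_fderiv_eq_neg_fderiv_mul_of_integrable (μ := (volume : Measure V))
    (f := bmp (n + 2) r) (g := f) (v := Pi.single j 1)
    ((hpb.mul hf.continuous).integrable_of_hasCompactSupport c1.mul_right)
    (((bmp_cont _ _).mul hpc).integrable_of_hasCompactSupport (bmp_compact (n + 1) r).mul_right)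
    (((bmp_cont _ _).mul hf.continuous).integrable_of_hasCompactSupport
      (bmp_compact (n + 1) r).mul_right)
    (fun y _ => bmp_diff n r y) (fun y _ => (hf.differentiable one_ne_zero) y)
  change ∫ y, bmp (n + 2) r y * pd j f y = -∫ y, pd j (bmp (n + 2) r) y * f y at h
  rw [h, ← integral_neg, ← integral_const_mul]
  congr 1
  funext y
  rw [pd_bmp]
  ring

end Pool.Agent.TH340.PS
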