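import Pool.Agent.TH340.PS.Ker

/-!
The average of the strain over a ball and radial velocities.
-/

open MeasureTheory Set Filter Topology
open scoped ContDiff

namespace Pool.Agent.TH340.PS

open H459R3.NS

/-- scalar product -/
noncomputable def dt (a b : V) : ℝ := ∑ i, a i * b i

theorem int_bmp (n : ℕ) (r : ℝ) {f : V → ℝ} (hf : Continuous f) :
    Integrable fun y => bmp (n + 1) r y * f y :=
  ((bmp_cont _ _).mul hf).integrable_of_hasCompactSupport (bmp_compact n r).mul_right

theorem dt_contDiff (e : V) : ContDiff ℝ ∞ (fun y : V => dt e y) := by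
  unfold dt
  fun_prop

theorem dt_cont (e : V) : Continuous (fun y : V => dt e y) := (dt_contDiff e).continuous

theorem pd_dt (e : V) (j : Fin 3) (y : V) : pd j (fun y : V => dt e y) y = e j := by
  unfold pd dt
  have h : HasFDerivAt (fun y : V => ∑ i, e i * y i)
      (∑ i, e i • (ContinuousLinearMap.proj i : V →L[ℝ] ℝ)) y := by
    refine HasFDerivAt.fun_sum fun i _ => ?_
    have h1 : HasFDerivAt (fun y : V => y i) (ContinuousLinearMap.proj i : V →L[ℝ] ℝ) y :=
      (ContinuousLinearMap.proj (R := ℝ) (φ := fun _ : Fin 3 => ℝ) i).hasFDerivAt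
    exact h1.const_mul (e i)
  rw [h.fderiv]
  simp [Pi.single_apply]

theorem pd_coord (i j : Fin 3) (y : V) : pd j (fun y : V => y i) y = if i = j then 1 else 0 := by
  unfold pd
  have h1 : HasFDerivAt (fun y : V => y i) (ContinuousLinearMap.proj i : V →L[ℝ] ℝ) y :=
      (ContinuousLinearMap.proj (R := ℝ) (φ := fun _ : Fin 3 => ℝ) i).hasFDerivAt
  rw [h1.fderiv]
  simp [Pi.single_apply]

theorem int_bmp2_three (r : ℝ) :
    3 * ∫ y, bmp 3 r y = 2 * r ^ 2 * ∫ y, bmp 2 r y := by
  have h : ∀ i : Fin 3, ∫ y, bmp 3 r y * 1 = 2 * (1 + 2 : ℕ) * ∫ y, bmp 2 r y * (y i * y i) := by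
    intro i
    have h1 := ibp_bmp 1 r (f := fun y : V => y i) (by fun_prop) i
    have e : (fun y => bmp 3 r y * pd i (fun y : V => y i) y) = fun y => bmp 3 r y * 1 := by
      funext y; rw [pd_coord, if_pos rfl]
    rw [show (1 + 2 : ℕ) = 3 from rfl] at h1
    rw [e] at h1
    exact h1
  have hs : 3 * ∫ y, bmp 3 r y = ∑ i : Fin 3, (6 * ∫ y, bmp 2 r y * (y i * y i)) := by
    have : ∀ i : Fin 3, (6 * ∫ y, bmp 2 r y * (y i * y i)) = ∫ y, bmp 3 r y := by
      intro i
      have := h i
      simp only [mul_one] at this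
      rw [this]; norm_num
    rw [Finset.sum_congr rfl fun i _ => this i]
    simp
  rw [← Finset.mul_sum, ← integral_finsetSum _ fun i _ =>
    int_bmp 1 r (f := fun y : V => y i * y i) (by fun_prop)] at hs
  have e2 : ∀ y : V, ∑ i, bmp 2 r y * (y i * y i) = r ^ 2 * bmp 2 r y - bmp 3 r y := by
    intro y
    rw [← Finset.mul_sum]
    have e3 : ∑ i, y i * y i = rho y := by
      unfold rho; exact Finset.sum_congr rfl fun i _ => by ring
    rw [e3]
    rcases le_total (r ^ 2) (rho y) with h | h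
    · rw [bmp_zero (n := 1) h, bmp_zero (n := 2) h]; ring
    · unfold bmp
      rw [max_eq_left (by linarith)]
      ring
  simp_rw [e2] at hs
  have i2 : Integrable (bmp 2 r) := by
    have := int_bmp 1 r (f := fun _ => 1) continuous_const
    simpa using this
  have i3 : Integrable (bmp 3 r) := by
    have := int_bmp 2 r (f := fun _ => 1) continuous_const
    simpa using this
  rw [integral_sub (i2.const_mul _) i3, integral_const_mul] at hs
  linarith

theorem int_bmp1_sq (r : ℝ) (e : V) :
    4 * ∫ y, bmp 1 r y * dt e y ^ 2 = rho e * ∫ y, bmp 2 r y := by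
  have h : ∀ i : Fin 3, ∫ y, bmp 2 r y * (e i * e i) = 4 * ∫ y, bmp 1 r y * (y i * (dt e y * e i)) := by
    intro i
    have h1 := ibp_bmp 0 r (f := fun y : V => dt e y * e i)
      (((dt_contDiff e).mul contDiff_const).of_le (by norm_cast)) i
    have e1 : (fun y => bmp 2 r y * pd i (fun y : V => dt e y * e i) y)
        = fun y => bmp 2 r y * (e i * e i) := by
      funext y
      congr 1
      have h2 : HasFDerivAt (fun y : V => dt e y * e i) _ y :=
        ((((dt_contDiff e).differentiable (by simp)) y).hasFDerivAt).mul_const (e i)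
      have h3 := pd_dt e i y
      unfold pd at h3 ⊢
      rw [h2.fderiv]
      simp only [smul_apply, smul_eq_mul, h3]
    rw [show (0 + 2 : ℕ) = 2 from rfl] at h1
    rw [e1] at h1
    rw [h1]
    norm_num
  have hs : ∑ i : Fin 3, ∫ y, bmp 2 r y * (e i * e i)
      = ∑ i : Fin 3, (4 * ∫ y, bmp 1 r y * (y i * (dt e y * e i))) :=
    Finset.sum_congr rfl fun i _ => h i
  rw [← Finset.mul_sum, ← integral_finsetSum _ fun i _ =>
    int_bmp 0 r (f := fun y : V => y i * (dt e y * e i))
      ((continuous_apply i).mul ((dt_cont e).mul continuous_const)),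
    ← integral_finsetSum _ fun i _ => int_bmp 1 r (f := fun y : V => e i * e i) continuous_const]
    at hs
  have e2 : ∀ y : V, ∑ i, bmp 1 r y * (y i * (dt e y * e i)) = bmp 1 r y * dt e y ^ 2 := by
    intro y
    rw [← Finset.mul_sum]
    congr 1
    have : ∑ i, y i * (dt e y * e i) = dt e y * ∑ i, e i * y i := by
      rw [Finset.mul_sum]; exact Finset.sum_congr rfl fun i _ => by ring
    rw [this]
    change dt e y * dt e y = _
    ring
  have e3 : ∀ y : V, ∑ i, bmp 2 r y * (e i * e i) = rho e * bmp 2 r y := by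
    intro y
    rw [← Finset.mul_sum, mul_comm]
    congr 1
    unfold rho
    exact Finset.sum_congr rfl fun i _ => by ring
  simp_rw [e2, e3] at hs
  rw [integral_const_mul] at hs
  exact hs.symm

theorem int_odd (r : ℝ) (e a : V) : ∫ y, bmp 1 r y * (dt e y ^ 2 * dt a y) = 0 := by
  have h := integral_neg_eq_self (fun y : V => bmp 1 r y * (dt e y ^ 2 * dt a y)) volume
  have e1 : ∀ (b y : V), dt b (-y) = -dt b y := fun b y => by simp [dt]
  have e2 : (fun y : V => bmp 1 r (-y) * (dt e (-y) ^ 2 * dt a (-y)))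
      = fun y => -(bmp 1 r y * (dt e y ^ 2 * dt a y)) := by
    funext y
    rw [bmp_neg, e1, e1]; ring
  rw [e2, integral_neg] at h
  linarith

/-- the identity between the averaged gradient and the radial velocities -/
theorem ker_id (r : ℝ) (e : V) {w : Fin 3 → V → ℝ} (hw : ∀ i, ContDiff ℝ 1 (w i))
    (hdiv : ∀ y, ∑ i, pd i (w i) y = 0) :
    ∫ y, bmp 3 r y * ∑ i, ∑ j, e i * e j * pd j (w i) y
      = 12 * ∫ y, bmp 1 r y * (dt e y ^ 2 * ∑ i, y i * w i y) := by
  have hpc : ∀ i j, Continuous (pd j (w i)) := fun i j =>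
    ((hw i).continuous_fderiv one_ne_zero).clm_apply continuous_const
  -- first step
  have s1 : ∫ y, bmp 3 r y * ∑ i, ∑ j, e i * e j * pd j (w i) y
      = 6 * ∫ y, bmp 2 r y * (dt e y * ∑ i, e i * w i y) := by
    have h1 : ∀ i j : Fin 3, ∫ y, bmp 3 r y * (e i * e j * pd j (w i) y)
        = 6 * ∫ y, bmp 2 r y * (e i * e j * (y j * w i y)) := by
      intro i j
      have h2 := ibp_bmp 1 r (hw i) j
      rw [show (1 + 2 : ℕ) = 3 from rfl] at h2
      have e1 : ∀ y, bmp 3 r y * (e i * e j * pd j (w i) y)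
          = e i * e j * (bmp 3 r y * pd j (w i) y) := fun y => by ring
      have e2 : ∀ y, bmp 2 r y * (e i * e j * (y j * w i y))
          = e i * e j * (bmp 2 r y * (y j * w i y)) := fun y => by ring
      simp_rw [e1, e2, integral_const_mul]
      rw [h2]
      push_cast
      ring
    have e3 : ∀ y, bmp 3 r y * ∑ i, ∑ j, e i * e j * pd j (w i) y
        = ∑ i, ∑ j, bmp 3 r y * (e i * e j * pd j (w i) y) := fun y => by
      simp_rw [Finset.mul_sum]
    have e4 : ∀ y, bmp 2 r y * (dt e y * ∑ i, e i * w i y)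
        = ∑ i, ∑ j, bmp 2 r y * (e i * e j * (y j * w i y)) := fun y => by
      unfold dt
      rw [Finset.sum_mul_sum, Finset.mul_sum, Finset.sum_comm]
      refine Finset.sum_congr rfl fun j _ => ?_
      rw [Finset.mul_sum]
      exact Finset.sum_congr rfl fun i _ => by ring
    simp_rw [e3, e4]
    have a1 : ∀ i j, Integrable fun y => bmp 3 r y * (e i * e j * pd j (w i) y) := fun i j =>
      int_bmp 2 r (f := fun y => e i * e j * pd j (w i) y) (continuous_const.mul (hpc i j))
    have a2 : ∀ i j, Integrable fun y => bmp 2 r y * (e i * e j * (y j * w i y)) := fun i j =>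
      int_bmp 1 r (f := fun y => e i * e j * (y j * w i y))
        (continuous_const.mul ((continuous_apply j).mul (hw i).continuous))
    rw [integral_finsetSum _ fun i _ => integrable_finsetSum _ fun j _ => a1 i j,
      integral_finsetSum _ fun i _ => integrable_finsetSum _ fun j _ => a2 i j,
      Finset.mul_sum]
    refine Finset.sum_congr rfl fun i _ => ?_
    rw [integral_finsetSum _ fun j _ => a1 i j, integral_finsetSum _ fun j _ => a2 i j,
      Finset.mul_sum]
    exact Finset.sum_congr rfl fun j _ => h1 i j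
  -- second step
  have s2 : ∫ y, bmp 2 r y * (dt e y * ∑ i, e i * w i y)
      = 2 * ∫ y, bmp 1 r y * (dt e y ^ 2 * ∑ i, y i * w i y) := by
    have hf : ∀ i, ContDiff ℝ 1 (fun y => dt e y ^ 2 * w i y) := fun i =>
      (((dt_contDiff e).of_le (by norm_cast)).pow 2).mul (hw i)
    have hpd : ∀ i y, pd i (fun y => dt e y ^ 2 * w i y) y
        = 2 * dt e y * e i * w i y + dt e y ^ 2 * pd i (w i) y := by
      intro i y
      have h1 : HasFDerivAt (fun y => dt e y) (fderiv ℝ (fun y => dt e y) y) y :=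
        (((dt_contDiff e).differentiable (by simp)) y).hasFDerivAt
      have h2 : HasFDerivAt (w i) (fderiv ℝ (w i) y) y :=
        (((hw i).differentiable one_ne_zero) y).hasFDerivAt
      have h3 : HasFDerivAt (fun y => dt e y ^ 2 * w i y) _ y := (h1.pow 2).mul h2
      have h4 := pd_dt e i y
      unfold pd at h4 ⊢
      rw [h3.fderiv]
      simp only [add_apply, smul_apply, smul_eq_mul, h4]
      ring
    have h1 : ∀ i, ∫ y, bmp 2 r y * pd i (fun y => dt e y ^ 2 * w i y) y
        = 4 * ∫ y, bmp 1 r y * (y i * (dt e y ^ 2 * w i y)) := by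
      intro i
      have := ibp_bmp 0 r (hf i) i
      rw [show (0 + 2 : ℕ) = 2 from rfl] at this
      rw [this]
      norm_num
    have hs : ∑ i, ∫ y, bmp 2 r y * pd i (fun y => dt e y ^ 2 * w i y) y
        = ∑ i, 4 * ∫ y, bmp 1 r y * (y i * (dt e y ^ 2 * w i y)) :=
      Finset.sum_congr rfl fun i _ => h1 i
    have a1 : ∀ i, Integrable fun y => bmp 2 r y * pd i (fun y => dt e y ^ 2 * w i y) y :=
      fun i => int_bmp 1 r (f := fun y => pd i (fun y => dt e y ^ 2 * w i y) y)
        (((hf i).continuous_fderiv one_ne_zero).clm_apply continuous_const)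
    have a2 : ∀ i, Integrable fun y => bmp 1 r y * (y i * (dt e y ^ 2 * w i y)) :=
      fun i => int_bmp 0 r (f := fun y => y i * (dt e y ^ 2 * w i y))
        ((continuous_apply i).mul (((dt_cont e).pow 2).mul (hw i).continuous))
    rw [← Finset.mul_sum, ← integral_finsetSum _ fun i _ => a1 i,
      ← integral_finsetSum _ fun i _ => a2 i] at hs
    have e1 : ∀ y, ∑ i, bmp 2 r y * pd i (fun y => dt e y ^ 2 * w i y) y
        = 2 * (bmp 2 r y * (dt e y * ∑ i, e i * w i y)) := by
      intro y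
      simp_rw [hpd]
      rw [← Finset.mul_sum, Finset.sum_add_distrib, ← Finset.mul_sum, hdiv, mul_zero, add_zero]
      have : ∑ i, 2 * dt e y * e i * w i y = 2 * dt e y * ∑ i, e i * w i y := by
        rw [Finset.mul_sum]; exact Finset.sum_congr rfl fun i _ => by ring
      rw [this]; ring
    have e2 : ∀ y, ∑ i, bmp 1 r y * (y i * (dt e y ^ 2 * w i y))
        = bmp 1 r y * (dt e y ^ 2 * ∑ i, y i * w i y) := by
      intro y
      rw [← Finset.mul_sum]
      congr 1
      rw [Finset.mul_sum]; exact Finset.sum_congr rfl fun i _ => by ring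
    simp_rw [e1, e2] at hs
    rw [integral_const_mul] at hs
    linarith
  rw [s1, s2]
  ring

/-- one-sided bound for the averaged strain -/
theorem ker_le {r : ℝ} (hr : 0 < r) (e : V) {w : Fin 3 → V → ℝ} (hw : ∀ i, ContDiff ℝ 1 (w i))
    (hdiv : ∀ y, ∑ i, pd i (w i) y = 0) {σ ψ : ℝ} (a : V)
    (h : ∀ y, rho y ≤ r ^ 2 → σ * ∑ i, y i * (w i y - a i) ≤ ψ) :
    σ * ∫ y, bmp 3 r y * ∑ i, ∑ j, e i * e j * pd j (w i) y
      ≤ 9 / 2 * (ψ / r ^ 2) * rho e * ∫ y, bmp 3 r y := by
  have hc : Continuous fun y : V => ∑ i, y i * w i y :=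
    continuous_finsetSum _ fun i _ => (continuous_apply i).mul (hw i).continuous
  have i1 : Integrable fun y => bmp 1 r y * (dt e y ^ 2 * ∑ i, y i * w i y) :=
    int_bmp 0 r (((dt_cont e).pow 2).mul hc)
  have i2 : Integrable fun y => bmp 1 r y * (dt e y ^ 2 * dt a y) :=
    int_bmp 0 r (((dt_cont e).pow 2).mul (dt_cont a))
  have i3 : Integrable fun y => bmp 1 r y * dt e y ^ 2 := int_bmp 0 r ((dt_cont e).pow 2)
  have h1 := ker_id r e hw hdiv
  have h2 := int_odd r e a
  have h3 := int_bmp1_sq r e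
  have h4 := int_bmp2_three r
  have h5 : σ * ∫ y, bmp 1 r y * (dt e y ^ 2 * ∑ i, y i * w i y)
      ≤ ψ * ∫ y, bmp 1 r y * dt e y ^ 2 := by
    have e1 : ∫ y, bmp 1 r y * (dt e y ^ 2 * ∑ i, y i * w i y)
        = ∫ y, (bmp 1 r y * (dt e y ^ 2 * ∑ i, y i * w i y)
          - bmp 1 r y * (dt e y ^ 2 * dt a y)) := by
      rw [integral_sub i1 i2, h2, sub_zero]
    rw [e1, ← integral_const_mul, ← integral_const_mul]
    refine integral_mono ((i1.sub i2).const_mul σ) (i3.const_mul ψ) fun y => ?_
    simp only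
    have e2 : bmp 1 r y * (dt e y ^ 2 * ∑ i, y i * w i y) - bmp 1 r y * (dt e y ^ 2 * dt a y)
        = bmp 1 r y * dt e y ^ 2 * ∑ i, y i * (w i y - a i) := by
      have : ∑ i, y i * (w i y - a i) = ∑ i, y i * w i y - dt a y := by
        unfold dt
        rw [← Finset.sum_sub_distrib]
        exact Finset.sum_congr rfl fun i _ => by ring
      rw [this]; ring
    rw [e2]
    rcases le_total (r ^ 2) (rho y) with hy | hy
    · rw [bmp_zero (n := 0) hy]; simp
    · have h6 := h y hy
      have h7 : 0 ≤ bmp 1 r y * dt e y ^ 2 := mul_nonneg (bmp_nonneg _ _ _) (sq_nonneg _)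
      calc _ = bmp 1 r y * dt e y ^ 2 * (σ * ∑ i, y i * (w i y - a i)) := by ring
        _ ≤ bmp 1 r y * dt e y ^ 2 * ψ := mul_le_mul_of_nonneg_left h6 h7
        _ = _ := by ring
  rw [h1]
  have e3 : ψ * ∫ y, bmp 1 r y * dt e y ^ 2 = ψ * (rho e * (3 / (2 * r ^ 2) * ∫ y, bmp 3 r y)) / 4 := by
    have : ∫ y, bmp 2 r y = 3 / (2 * r ^ 2) * ∫ y, bmp 3 r y := by
      field_simp
      linarith
    rw [← this, ← h3]; ring
  rw [e3] at h5
  calc σ * (12 * ∫ y, bmp 1 r y * (dt e y ^ 2 * ∑ i, y i * w i y))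
      = 12 * (σ * ∫ y, bmp 1 r y * (dt e y ^ 2 * ∑ i, y i * w i y)) := by ring
    _ ≤ 12 * (ψ * (rho e * (3 / (2 * r ^ 2) * ∫ y, bmp 3 r y)) / 4) :=
        mul_le_mul_of_nonneg_left h5 (by norm_num)
    _ = _ := by
        field_simp
        ring

theorem int_bmp3_pos {r : ℝ} (hr : 0 < r) : 0 < ∫ y, bmp 3 r y := by
  have hi : Integrable (bmp 3 r) := by
    have := int_bmp 2 r (f := fun _ => 1) continuous_const
    simpa using this
  rw [integral_pos_iff_support_of_nonneg (fun y => bmp_nonneg 3 r y) hi]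
  have ho : IsOpen (Function.support (bmp 3 r)) := (bmp_cont 3 r).isOpen_support
  refine ho.measure_pos volume ⟨0, ?_⟩
  rw [Function.mem_support]
  unfold bmp rho
  simp only [Pi.zero_apply]
  norm_num
  exact hr.ne'

end Pool.Agent.TH340.PS
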