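import Pool.Agent.TH340.PS.Str4

/-!
Hölder continuity and a pointwise bound for the strain.
-/

open MeasureTheory Set Filter Topology
open scoped ContDiff

namespace Pool.Agent.TH340.PS

open H459R3.NS H459R3.EU

theorem summable_int3 : Summable fun n : ℤ => (1 + (n : ℝ) ^ 2) ^ (-(7 / 12) : ℝ) := by
  have h : Summable fun n : ℤ => |(n : ℝ)| ^ (-(7 / 6) : ℝ) :=
    Real.summable_abs_int_rpow (by norm_num)
  have h2 := h.add (summable_of_hasFiniteSupport (f := fun n : ℤ => if n = 0 then (1 : ℝ) else 0)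
    ((Set.finite_singleton (0 : ℤ)).subset fun n hn => by
      by_contra h
      exact hn (if_neg h)))
  refine Summable.of_nonneg_of_le (fun n => by positivity) (fun n => ?_) h2
  by_cases hn : n = 0
  · subst hn
    rw [if_pos rfl]
    have h3 : (0 : ℝ) ≤ |((0 : ℤ) : ℝ)| ^ (-(7 / 6) : ℝ) := by positivity
    have h4 : (1 + ((0 : ℤ) : ℝ) ^ 2) ^ (-(7 / 12) : ℝ) = 1 := by simp
    linarith
  · rw [if_neg hn, add_zero]
    have hn' : 0 < |(n : ℝ)| := abs_pos.2 (by exact_mod_cast hn)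
    have e : |(n : ℝ)| ^ (-(7 / 6) : ℝ) = (|(n : ℝ)| ^ 2) ^ (-(7 / 12) : ℝ) := by
      rw [← Real.rpow_natCast, ← Real.rpow_mul hn'.le]
      norm_num
    rw [e, sq_abs]
    apply Real.rpow_le_rpow_of_nonpos (by positivity) (by linarith) (by norm_num)

theorem summable_N7 : Summable fun k : K3 => if k = 0 then (0 : ℝ) else (N k : ℝ) ^ (-(7 / 2) : ℝ) := by
  have h1 := summable_int3.mul_of_nonneg summable_int3 (fun n => by positivity)
    (fun n => by positivity)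
  have h2 := summable_int3.mul_of_nonneg h1 (fun n => by positivity)
    (fun p => by positivity)
  have h3 := (eqv.summable_iff (f := fun p : ℤ × ℤ × ℤ =>
    (1 + (p.1 : ℝ) ^ 2) ^ (-(7 / 12) : ℝ) * ((1 + (p.2.1 : ℝ) ^ 2) ^ (-(7 / 12) : ℝ)
      * (1 + (p.2.2 : ℝ) ^ 2) ^ (-(7 / 12) : ℝ)))).2 h2
  refine Summable.of_nonneg_of_le (fun k => by split_ifs <;> positivity) (fun k => ?_)
    (h3.mul_left ((2 : ℝ) ^ (7 / 4 : ℝ)))
  by_cases hk : k = 0
  · rw [if_pos hk]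
    simp only [Function.comp_apply]
    positivity
  · rw [if_neg hk]
    have hN : 1 ≤ N k := Nat.one_le_iff_ne_zero.2 fun h => hk (N_eq_zero.1 h)
    have hN' : (1 : ℝ) ≤ N k := by exact_mod_cast hN
    have hj : ∀ j, (2 * (N k : ℝ) ^ 2) ^ (-(7 / 12) : ℝ) ≤ (1 + (k j : ℝ) ^ 2) ^ (-(7 / 12) : ℝ) := by
      intro j
      apply Real.rpow_le_rpow_of_nonpos (by positivity) _ (by norm_num)
      have h := (N_le_iff k (N k)).1 le_rfl j
      have h1 : |(k j : ℝ)| ≤ N k := by exact_mod_cast h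
      rw [← sq_abs (k j : ℝ)]
      nlinarith [abs_nonneg (k j : ℝ)]
    have e : (N k : ℝ) ^ (-(7 / 2) : ℝ) = (2 : ℝ) ^ (7 / 4 : ℝ) * ((2 * (N k : ℝ) ^ 2) ^ (-(7 / 12) : ℝ)
        * ((2 * (N k : ℝ) ^ 2) ^ (-(7 / 12) : ℝ) * (2 * (N k : ℝ) ^ 2) ^ (-(7 / 12) : ℝ))) := by
      rw [← Real.rpow_add (by positivity), ← Real.rpow_add (by positivity)]
      have : (-(7 / 12) + (-(7 / 12) + -(7 / 12)) : ℝ) = -(7 / 4) := by norm_num
      rw [this, Real.mul_rpow (by norm_num) (by positivity), ← mul_assoc,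
        ← Real.rpow_add (by norm_num)]
      norm_num
      rw [← Real.rpow_natCast, ← Real.rpow_mul (by positivity)]
      norm_num
    rw [e]
    have e5 : ((fun p : ℤ × ℤ × ℤ => (1 + (p.1 : ℝ) ^ 2) ^ (-(7 / 12) : ℝ)
      * ((1 + (p.2.1 : ℝ) ^ 2) ^ (-(7 / 12) : ℝ) * (1 + (p.2.2 : ℝ) ^ 2) ^ (-(7 / 12) : ℝ))) ∘ eqv) k
      = (1 + (k 0 : ℝ) ^ 2) ^ (-(7 / 12) : ℝ) * ((1 + (k 1 : ℝ) ^ 2) ^ (-(7 / 12) : ℝ)
        * (1 + (k 2 : ℝ) ^ 2) ^ (-(7 / 12) : ℝ)) := rfl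
    rw [e5]
    refine mul_le_mul_of_nonneg_left ?_ (by positivity)
    exact mul_le_mul (hj 0) (mul_le_mul (hj 1) (hj 2) (by positivity) (by positivity))
      (by positivity) (by positivity)

/-- the constant of the embedding -/
noncomputable def C7 : ℝ := ∑' k : K3, if k = 0 then (0 : ℝ) else (N k : ℝ) ^ (-(7 / 2) : ℝ)

theorem C7_nonneg : 0 ≤ C7 := tsum_nonneg fun k => by split_ifs <;> positivity

/-- `‖Δf‖` controls the coefficients -/
theorem N_sq_fr_le {f : V → ℝ} (hf : SP f) (k : K3) :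
    (N k : ℝ) ^ 2 * ‖fr f k‖ ≤ ‖fr (lap f) k‖ := by
  have e1 : fr (lap f) k = -(((2 * Real.pi) ^ 2 * ∑ j, (k j : ℝ) ^ 2 : ℝ) : ℂ) * fr f k := by
    unfold lap
    rw [fr_sum fun j _ => (hf.pd j).pd j]
    push_cast
    rw [Finset.mul_sum, ← Finset.sum_neg_distrib, Finset.sum_mul]
    refine Finset.sum_congr rfl fun j _ => ?_
    rw [fr_pd (hf.pd j), fr_pd hf, D, D]
    have := Complex.I_sq
    linear_combination ((2 * Real.pi : ℂ) ^ 2 * (k j : ℂ) ^ 2 * fr f k) * this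
  rw [e1, norm_mul, norm_neg, Complex.norm_real, Real.norm_eq_abs,
    abs_of_nonneg (by positivity)]
  refine mul_le_mul_of_nonneg_right ?_ (norm_nonneg _)
  have a1 := N_sq_le k
  have a2 : (1 : ℝ) ≤ (2 * Real.pi) ^ 2 := by nlinarith [Real.pi_gt_three]
  have a3 : (0 : ℝ) ≤ ∑ j, (k j : ℝ) ^ 2 := by positivity
  nlinarith

theorem norm_ee_sub_one (k : K3) {y : V} {r : ℝ} (hr : 0 ≤ r) (hy : ∀ i, |y i| ≤ r) :
    ‖ee k y - 1‖ ≤ 6 * ((N k : ℝ) * r) ^ (1 / 4 : ℝ) := by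
  set θ : ℝ := 2 * Real.pi * ph k y with hθ
  have e1 : ee k y = Complex.exp (Complex.I * θ) := by
    rw [ee, hθ]; congr 1; push_cast; ring
  have h1 : ‖ee k y - 1‖ ≤ |θ| := by
    rw [e1]
    simpa using Real.norm_exp_I_mul_ofReal_sub_one_le (x := θ)
  have h2 : ‖ee k y - 1‖ ≤ 2 := by
    refine (norm_sub_le _ _).trans ?_
    rw [norm_ee, norm_one]; norm_num
  have h3 : |ph k y| ≤ 3 * ((N k : ℝ) * r) := by
    unfold ph
    refine (Finset.abs_sum_le_sum_abs _ _).trans ?_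
    have : ∀ j ∈ Finset.univ, |(k j : ℝ) * y j| ≤ (N k : ℝ) * r := by
      intro j _
      rw [abs_mul]
      have h := (N_le_iff k (N k)).1 le_rfl j
      have h1 : |(k j : ℝ)| ≤ N k := by exact_mod_cast h
      exact mul_le_mul h1 (hy j) (abs_nonneg _) (Nat.cast_nonneg _)
    refine (Finset.sum_le_sum this).trans ?_
    rw [Finset.sum_const, Finset.card_univ, Fintype.card_fin, nsmul_eq_mul]
    norm_num
  have hNr : 0 ≤ (N k : ℝ) * r := by positivity
  have h4 : |θ| ≤ 24 * ((N k : ℝ) * r) := by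
    rw [hθ, abs_mul, abs_of_pos Real.two_pi_pos]
    nlinarith [Real.pi_lt_four, Real.pi_pos]
  have h5 : ‖ee k y - 1‖ ≤ 2 * |θ| ^ (1 / 4 : ℝ) := by
    rcases le_total |θ| 1 with h | h
    · have : |θ| ≤ |θ| ^ (1 / 4 : ℝ) := by
        rcases (abs_nonneg θ).lt_or_eq with h0 | h0
        · have := Real.rpow_le_rpow_of_exponent_ge h0 h (by norm_num : (1 / 4 : ℝ) ≤ 1)
          rwa [Real.rpow_one] at this
        · rw [← h0, Real.zero_rpow (by norm_num)]
      have h6 : 0 ≤ |θ| ^ (1 / 4 : ℝ) := by positivity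
      linarith
    · have : 1 ≤ |θ| ^ (1 / 4 : ℝ) := Real.one_le_rpow h (by norm_num)
      linarith
  have h6 : |θ| ^ (1 / 4 : ℝ) ≤ 3 * ((N k : ℝ) * r) ^ (1 / 4 : ℝ) := by
    refine (Real.rpow_le_rpow (abs_nonneg _) h4 (by norm_num)).trans ?_
    rw [Real.mul_rpow (by norm_num) hNr]
    refine mul_le_mul_of_nonneg_right ?_ (by positivity)
    have : (24 : ℝ) ^ (1 / 4 : ℝ) ≤ (3 ^ 4 : ℝ) ^ (1 / 4 : ℝ) :=
      Real.rpow_le_rpow (by norm_num) (by norm_num) (by norm_num)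
    refine this.trans (le_of_eq ?_)
    rw [← Real.rpow_natCast, ← Real.rpow_mul (by norm_num)]
    norm_num
  linarith

/-- Hölder continuity -/
theorem holder_le {f : V → ℝ} (hf : SP f) (x : V) {y : V} {r : ℝ} (hr : 0 ≤ r)
    (hy : ∀ i, |y i| ≤ r) :
    |f (x + y) - f x| ≤ 6 * Real.sqrt C7 * (r ^ (1 / 4 : ℝ) * nrm (lap f)) := by
  have hrp := rap_fr hf
  have hl := rap_fr hf.lap
  set w : K3 → ℝ := fun k => Real.sqrt (if k = 0 then (0 : ℝ) else (N k : ℝ) ^ (-(7 / 2) : ℝ)) with hw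
  have hs := summable_term hrp.summable
  have e1 : (((f (x + y) - f x : ℝ)) : ℂ) = ∑' k, fr f k * ee k x * (ee k y - 1) := by
    push_cast
    rw [← S_fr hf (x + y), ← S_fr hf x]
    unfold S
    rw [← (hs (x + y)).tsum_sub (hs x)]
    refine tsum_congr fun k => ?_
    rw [ee_add]; ring
  have hbd : ∀ k, ‖fr f k * ee k x * (ee k y - 1)‖
      ≤ 6 * r ^ (1 / 4 : ℝ) * (w k * ‖fr (lap f) k‖) := by
    intro k
    rw [norm_mul, norm_mul, norm_ee, mul_one]
    by_cases hk : k = 0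
    · rw [hk, ee_zero, sub_self, norm_zero, mul_zero]
      positivity
    · have hN : 1 ≤ N k := Nat.one_le_iff_ne_zero.2 fun h => hk (N_eq_zero.1 h)
      have hN' : (0 : ℝ) < N k := by exact_mod_cast hN
      have h1 := norm_ee_sub_one k hr hy
      have h2 := N_sq_fr_le hf k
      have ew : w k = (N k : ℝ) ^ (-(7 / 4) : ℝ) := by
        simp only [hw]
        rw [if_neg hk, Real.sqrt_eq_rpow, ← Real.rpow_mul hN'.le]
        norm_num
      rw [ew]
      have h3 : ‖fr f k‖ * (N k : ℝ) ^ (1 / 4 : ℝ) ≤ (N k : ℝ) ^ (-(7 / 4) : ℝ) * ‖fr (lap f) k‖ := by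
        have : ‖fr f k‖ * (N k : ℝ) ^ (1 / 4 : ℝ)
            = (N k : ℝ) ^ (-(7 / 4) : ℝ) * ((N k : ℝ) ^ 2 * ‖fr f k‖) := by
          have e : (N k : ℝ) ^ (1 / 4 : ℝ) = (N k : ℝ) ^ (-(7 / 4) : ℝ) * (N k : ℝ) ^ 2 := by
            rw [← Real.rpow_natCast (N k : ℝ) 2, ← Real.rpow_add hN']
            norm_num
          rw [e]; ring
        rw [this]
        exact mul_le_mul_of_nonneg_left h2 (by positivity)
      calc ‖fr f k‖ * ‖ee k y - 1‖ ≤ ‖fr f k‖ * (6 * ((N k : ℝ) * r) ^ (1 / 4 : ℝ)) :=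
            mul_le_mul_of_nonneg_left h1 (norm_nonneg _)
        _ = 6 * r ^ (1 / 4 : ℝ) * (‖fr f k‖ * (N k : ℝ) ^ (1 / 4 : ℝ)) := by
            rw [Real.mul_rpow hN'.le hr]; ring
        _ ≤ _ := mul_le_mul_of_nonneg_left h3 (by positivity)
  have sq1 : Summable fun k : K3 => w k ^ 2 := by
    refine summable_N7.congr fun k => ?_
    simp only [hw]
    rw [Real.sq_sqrt (by split_ifs <;> positivity)]
  have sq2 := summable_sq hl.summable
  have hw0 : ∀ k, 0 ≤ w k := fun k => Real.sqrt_nonneg _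
  have s2 : Summable fun k : K3 => w k * ‖fr (lap f) k‖ := by
    refine Summable.of_nonneg_of_le (fun k => mul_nonneg (hw0 k) (norm_nonneg _)) (fun k => ?_)
      (sq1.add sq2)
    nlinarith [sq_nonneg (w k - ‖fr (lap f) k‖), sq_nonneg (w k), sq_nonneg ‖fr (lap f) k‖]
  have s3 : Summable fun k => ‖fr f k * ee k x * (ee k y - 1)‖ :=
    Summable.of_nonneg_of_le (fun k => norm_nonneg _) hbd (s2.mul_left _)
  have h1 : |f (x + y) - f x| ≤ ∑' k, 6 * r ^ (1 / 4 : ℝ) * (w k * ‖fr (lap f) k‖) := by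
    rw [← Real.norm_eq_abs, ← Complex.norm_real, e1]
    exact (norm_tsum_le_tsum_norm s3).trans (s3.tsum_le_tsum hbd (s2.mul_left _))
  rw [tsum_mul_left] at h1
  have t2 : ∑' k : K3, w k * ‖fr (lap f) k‖ ≤ Real.sqrt C7 * nrm (lap f) := by
    refine s2.tsum_le_of_sum_le fun F => ?_
    have b1 := Finset.sum_mul_sq_le_sq_mul_sq F w (fun k => ‖fr (lap f) k‖)
    have b2 : ∑ k ∈ F, w k ^ 2 ≤ C7 := by
      have : ∑' k : K3, w k ^ 2 = C7 :=
        tsum_congr fun k => by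
          simp only [hw]
          exact Real.sq_sqrt (by split_ifs <;> positivity)
      rw [← this]
      exact sq1.sum_le_tsum F fun _ _ => sq_nonneg _
    have b3 : ∑ k ∈ F, ‖fr (lap f) k‖ ^ 2 ≤ nrm (lap f) ^ 2 := by
      rw [nrm_sq, ← n2_fr hf.lap, n2_sq]
      exact sq2.sum_le_tsum F fun _ _ => sq_nonneg _
    have b4 : (∑ k ∈ F, w k * ‖fr (lap f) k‖) ^ 2 ≤ (Real.sqrt C7 * nrm (lap f)) ^ 2 := by
      rw [mul_pow, Real.sq_sqrt C7_nonneg]
      exact b1.trans (mul_le_mul b2 b3 (Finset.sum_nonneg fun _ _ => sq_nonneg _) C7_nonneg)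
    exact abs_le_of_sq_le_sq' b4 (mul_nonneg (Real.sqrt_nonneg _) (nrm_nonneg _)) |>.2
  calc _ ≤ 6 * r ^ (1 / 4 : ℝ) * ∑' k : K3, w k * ‖fr (lap f) k‖ := h1
    _ ≤ 6 * r ^ (1 / 4 : ℝ) * (Real.sqrt C7 * nrm (lap f)) :=
        mul_le_mul_of_nonneg_left t2 (by positivity)
    _ = _ := by ring

/-- the average is close to the function -/
theorem mv_sub_le {f : V → ℝ} (hf : SP f) (x : V) {r : ℝ} (hr : 0 < r) :
    |f x - mv r f x| ≤ 6 * Real.sqrt C7 * (r ^ (1 / 4 : ℝ) * nrm (lap f)) := by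
  have hN := int_bmp3_pos hr
  set M : ℝ := 6 * Real.sqrt C7 * (r ^ (1 / 4 : ℝ) * nrm (lap f)) with hM
  have i0 : Integrable fun y => bmp 3 r y := by
    have := int_bmp 2 r (f := fun _ => 1) continuous_const
    simpa using this
  have e1 : f x - mv r f x = (∫ y, bmp 3 r y)⁻¹ * ∫ y, bmp 3 r y * (f x - f (x + y)) := by
    have e2 : ∀ y, bmp 3 r y * (f x - f (x + y)) = bmp 3 r y * f x - bmp 3 r y * f (x + y) :=
      fun y => by ring
    simp_rw [e2]
    rw [integral_sub (i0.mul_const _) (int_mv hf.cont x), integral_mul_const]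
    unfold mv
    field_simp
  have h1 : |∫ y, bmp 3 r y * (f x - f (x + y))| ≤ ∫ y, bmp 3 r y * M := by
    rw [← Real.norm_eq_abs]
    refine norm_integral_le_of_norm_le (i0.mul_const M) (Eventually.of_forall fun y => ?_)
    rw [norm_mul, Real.norm_eq_abs, Real.norm_eq_abs, abs_of_nonneg (bmp_nonneg _ _ _)]
    rcases le_total (r ^ 2) (rho y) with hy | hy
    · rw [bmp_zero (n := 2) hy, zero_mul, zero_mul]
    · refine mul_le_mul_of_nonneg_left ?_ (bmp_nonneg _ _ _)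
      rw [abs_sub_comm]
      refine holder_le hf x hr.le fun i => ?_
      have := (sq_le_rho y i).trans hy
      have := sq_le_sq.1 this
      rwa [abs_of_pos hr] at this
  rw [e1, abs_mul, abs_of_pos (inv_pos.2 hN)]
  calc _ ≤ (∫ y, bmp 3 r y)⁻¹ * ∫ y, bmp 3 r y * M :=
        mul_le_mul_of_nonneg_left h1 (inv_nonneg.2 hN.le)
    _ = M := by rw [integral_mul_const]; field_simp

end Pool.Agent.TH340.PS
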