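import Pool.Agent.TH340.PS.Avg
import Pool.Agent.H459R3.EU.Evo

/-!
The estimate for three derivatives of the convection term with the strain only.
-/

open MeasureTheory Set Filter Topology
open scoped ContDiff

namespace Pool.Agent.TH340.PS

open H459R3.NS H459R3.EU

theorem str_symm (v : Fin 3 → V → ℝ) (i j : Fin 3) : str v i j = str v j i := by
  funext y; unfold str; ring

/-- bounds for one field -/
structure BS (v : Fin 3 → V → ℝ) (s X : ℝ) : Prop where
  sp : ∀ i, SP (v i)
  s : ∀ i j x, |str v i j x| ≤ s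
  X : ∀ l i j k, nrm (d3 i j k (v l)) ≤ X

variable {v : Fin 3 → V → ℝ} {s X : ℝ}

theorem BS.s0 (h : BS v s X) : 0 ≤ s := (abs_nonneg _).trans (h.s 0 0 0)

theorem BS.X0 (h : BS v s X) : 0 ≤ X := (nrm_nonneg _).trans (h.X 0 0 0 0)

theorem sum3_le {f : Fin 3 → ℝ} {B : ℝ} (h : ∀ i, |f i| ≤ B) : |∑ i, f i| ≤ 3 * B := by
  refine (Finset.abs_sum_le_sum_abs _ _).trans ((Finset.sum_le_sum fun i _ => h i).trans ?_)
  rw [Finset.sum_const, Finset.card_univ, Fintype.card_fin, nsmul_eq_mul]
  norm_num

/-- symmetric contraction: only the strain matters -/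
theorem sym_le (hb : BS v s X) {h : Fin 3 → V → ℝ} (hh : ∀ i, SP (h i)) (hX : ∀ i, nrm (h i) ≤ X) :
    |∑ i, ∑ n, ∫ x in cube, pd i (v n) x * (h n x * h i x)| ≤ 9 * (s * X ^ 2) := by
  have e1 : ∀ i n, ∫ x in cube, str v i n x * (h n x * h i x)
      = 1 / 2 * (∫ x in cube, pd i (v n) x * (h n x * h i x))
        + 1 / 2 * ∫ x in cube, pd n (v i) x * (h i x * h n x) := by
    intro i n
    rw [← integral_const_mul, ← integral_const_mul, ← integral_add]
    · congr 1
      funext x
      unfold str
      ring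
    · exact (((hb.sp n).pd i).mul ((hh n).mul (hh i))).int.const_mul _
    · exact (((hb.sp i).pd n).mul ((hh i).mul (hh n))).int.const_mul _
  have e2 : ∑ i, ∑ n, ∫ x in cube, pd i (v n) x * (h n x * h i x)
      = ∑ i, ∑ n, ∫ x in cube, str v i n x * (h n x * h i x) := by
    simp_rw [e1, Finset.sum_add_distrib]
    have e3 : ∑ i, ∑ n, 1 / 2 * ∫ x in cube, pd n (v i) x * (h i x * h n x)
        = ∑ i, ∑ n, 1 / 2 * ∫ x in cube, pd i (v n) x * (h n x * h i x) := Finset.sum_comm
    rw [e3, ← Finset.sum_add_distrib]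
    refine Finset.sum_congr rfl fun i _ => ?_
    rw [← Finset.sum_add_distrib]
    exact Finset.sum_congr rfl fun n _ => by ring
  rw [e2]
  have h1 : ∀ i n, |∫ x in cube, str v i n x * (h n x * h i x)| ≤ s * X ^ 2 := by
    intro i n
    have e4 : ∀ x, str v i n x * (h n x * h i x) = (str v i n x * h n x) * h i x := fun x => by ring
    simp_rw [e4]
    refine (abs_int_mul_le ((sp_str hb.sp i n).mul (hh n)).cont (hh i).cont).trans ?_
    have h2 := nrm_mul_le (sp_str hb.sp i n).cont (hh n).cont (hb.s i n)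
    have h3 := nrm_nonneg (h n)
    have h4 := nrm_nonneg (h i)
    have h5 := hb.s0
    have h6 := hb.X0
    calc nrm (fun x => str v i n x * h n x) * nrm (h i) ≤ (s * X) * X := by
          refine mul_le_mul (h2.trans (mul_le_mul_of_nonneg_left (hX n) h5)) (hX i) h4
            (by positivity)
      _ = _ := by ring
  have h2 := sum3_le fun i => sum3_le (f := fun n => ∫ x in cube, str v i n x * (h n x * h i x))
    (h1 i)
  linarith

theorem pd_str (hv : ∀ i, SP (v i)) (k i j : Fin 3) (x : V) :
    pd k (str v i j) x = (pd k (pd i (v j)) x + pd k (pd j (v i)) x) / 2 := by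
  have e : str v i j = fun y => (1 / 2) * (pd i (v j) y + pd j (v i) y) := by
    funext y; unfold str; ring
  have h : HasFDerivAt (fun y => (1 / 2) * (pd i (v j) y + pd j (v i) y)) _ x :=
    ((((hv j).pd i).diff x).hasFDerivAt.add (((hv i).pd j).diff x).hasFDerivAt).const_mul (1 / 2)
  have h2 : pd k (fun y => (1 / 2) * (pd i (v j) y + pd j (v i) y)) x
      = (1 / 2) * (pd k (pd i (v j)) x + pd k (pd j (v i)) x) := by
    unfold pd at h ⊢
    rw [h.fderiv]
    simp
    ring
  rw [e, h2]
  ring

/-- second derivatives of a field in terms of derivatives of the strain -/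
theorem pd_pd_eq (hv : ∀ i, SP (v i)) (i j n : Fin 3) (x : V) :
    pd i (pd j (v n)) x = pd i (str v j n) x + pd j (str v i n) x - pd n (str v i j) x := by
  rw [pd_str hv, pd_str hv, pd_str hv]
  have h1 := congrFun (pd_comm (hv n) i j) x
  have h2 := congrFun (pd_comm (hv j) i n) x
  have h3 := congrFun (pd_comm (hv i) j n) x
  rw [h1, h2, h3]
  ring

theorem nrm_pd_pd_str (hb : BS v s X) (i j k : Fin 3) : nrm (pd k (pd k (str v i j))) ≤ X := by
  have e1 : pd k (str v i j) = fun x => (1 / 2) * (pd k (pd i (v j)) x + pd k (pd j (v i)) x) := by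
    funext x; rw [pd_str hb.sp]; ring
  have e : pd k (pd k (str v i j)) = fun x => (1 / 2) * (d3 k k i (v j) x + d3 k k j (v i) x) := by
    rw [e1]
    funext x
    have h : HasFDerivAt (fun x => (1 / 2) * (pd k (pd i (v j)) x + pd k (pd j (v i)) x)) _ x :=
      (((((hb.sp j).pd i).pd k).diff x).hasFDerivAt.add
        ((((hb.sp i).pd j).pd k).diff x).hasFDerivAt).const_mul (1 / 2)
    unfold d3
    unfold pd at h ⊢
    rw [h.fderiv]
    simp
    ring
  rw [e]
  have c1 := (sp_d3 (hb.sp j) k k i).cont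
  have c2 := (sp_d3 (hb.sp i) k k j).cont
  refine (nrm_mul_le (f := fun _ => (1 / 2 : ℝ)) (g := fun x => d3 k k i (v j) x + d3 k k j (v i) x)
    continuous_const (c1.add c2) (b := 1 / 2) (fun x => by norm_num)).trans ?_
  have := nrm_add_le c1 c2
  have h1 := hb.X j k k i
  have h2 := hb.X i k k j
  linarith

theorem nrm_str_sq (hb : BS v s X) (i j k : Fin 3) :
    nrm (fun x => pd k (str v i j) x * pd k (str v i j) x) ≤ 3 * (s * X) := by
  refine (nrm_sq_pd_le (sp_str hb.sp i j) k (hb.s i j)).trans ?_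
  have := mul_le_mul_of_nonneg_left (nrm_pd_pd_str hb i j k) hb.s0
  linarith

theorem nrm_str_mul (hb : BS v s X) (i j k i' j' k' : Fin 3) :
    nrm (fun x => pd k (str v i j) x * pd k' (str v i' j') x) ≤ 3 * (s * X) := by
  have h0 := nrm_mul_le' ((sp_str hb.sp i j).pd k).cont ((sp_str hb.sp i' j').pd k').cont
  have h1 := nrm_str_sq hb i j k
  have h2 := nrm_str_sq hb i' j' k'
  have hs := hb.s0
  have hX := hb.X0
  have h3 : nrm (fun x => pd k (str v i j) x * pd k' (str v i' j') x) ^ 2 ≤ (3 * (s * X)) ^ 2 := by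
    refine h0.trans ?_
    calc _ ≤ (3 * (s * X)) * (3 * (s * X)) := mul_le_mul h1 h2 (nrm_nonneg _) (by positivity)
      _ = _ := by ring
  exact (pow_le_pow_iff_left₀ (nrm_nonneg _) (by positivity) (by norm_num)).1 h3

theorem nrm_two_str (hb : BS v s X) (i j n k m l : Fin 3) :
    nrm (fun x => pd i (pd j (v n)) x * pd k (pd m (v l)) x) ≤ 27 * (s * X) := by
  have c : ∀ a b c : Fin 3, Continuous (pd a (str v b c)) := fun a b c =>
    ((sp_str hb.sp b c).pd a).cont
  -- expand the second factor, then the first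
  have e : (fun x => pd i (pd j (v n)) x * pd k (pd m (v l)) x) = fun x => ∑ p : Fin 3, ∑ q : Fin 3,
      ((![1, 1, -1] p : ℝ) * (![1, 1, -1] q : ℝ)) *
      ((![pd i (str v j n) x, pd j (str v i n) x, pd n (str v i j) x] p) *
       (![pd k (str v m l) x, pd m (str v k l) x, pd l (str v k m) x] q)) := by
    funext x
    rw [pd_pd_eq hb.sp, pd_pd_eq hb.sp]
    simp only [Fin.sum_univ_three, Matrix.cons_val_zero, Matrix.cons_val_one,
      Matrix.cons_val_two, Matrix.head_cons, Matrix.tail_cons]
    ring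
  have hc : ∀ p q : Fin 3, Continuous fun x => ((![1, 1, -1] p : ℝ) * (![1, 1, -1] q : ℝ)) *
      ((![pd i (str v j n) x, pd j (str v i n) x, pd n (str v i j) x] p) *
       (![pd k (str v m l) x, pd m (str v k l) x, pd l (str v k m) x] q)) := by
    intro p q
    refine continuous_const.mul (Continuous.mul ?_ ?_)
    · fin_cases p <;> simp <;> apply c
    · fin_cases q <;> simp <;> apply c
  have hn : ∀ p q : Fin 3, nrm (fun x => ((![1, 1, -1] p : ℝ) * (![1, 1, -1] q : ℝ)) *
      ((![pd i (str v j n) x, pd j (str v i n) x, pd n (str v i j) x] p) *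
       (![pd k (str v m l) x, pd m (str v k l) x, pd l (str v k m) x] q))) ≤ 3 * (s * X) := by
    intro p q
    have h1 : nrm (fun x => (![pd i (str v j n) x, pd j (str v i n) x, pd n (str v i j) x] p) *
       (![pd k (str v m l) x, pd m (str v k l) x, pd l (str v k m) x] q)) ≤ 3 * (s * X) := by
      fin_cases p <;> fin_cases q <;> simp <;> apply nrm_str_mul hb
    refine (nrm_mul_le (f := fun _ => ((![1, 1, -1] p : ℝ) * (![1, 1, -1] q : ℝ)))
      continuous_const ?_ (b := 1) fun x => ?_).trans (by rw [one_mul]; exact h1)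
    · refine Continuous.mul ?_ ?_
      · fin_cases p <;> simp <;> apply c
      · fin_cases q <;> simp <;> apply c
    · fin_cases p <;> fin_cases q <;> simp
  rw [e]
  refine (nrm_sum_le fun p => continuous_finsetSum _ fun q _ => hc p q).trans ?_
  refine (Finset.sum_le_sum fun p _ => (nrm_sum_le fun q => hc p q).trans
    (Finset.sum_le_sum fun q _ => hn p q)).trans ?_
  simp only [Finset.sum_const, Finset.card_univ, Fintype.card_fin, nsmul_eq_mul]
  push_cast
  linarith

end Pool.Agent.TH340.PS
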