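import Pool.Agent.TH340.PS.Str3

/-!
The estimate for three derivatives of the convection term with the strain only, II.
-/

open MeasureTheory Set Filter Topology
open scoped ContDiff

namespace Pool.Agent.TH340.PS

open H459R3.NS H459R3.EU

variable {v : Fin 3 → V → ℝ} {s X : ℝ}

theorem abs_int_two (hb : BS v s X) (i j n k m l i' j' k' l' : Fin 3) :
    |∫ x in cube, (pd i (pd j (v n)) x * pd k (pd m (v l)) x) * d3 i' j' k' (v l') x|
      ≤ 27 * (s * X ^ 2) := by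
  refine (abs_int_mul_le (f := fun x => pd i (pd j (v n)) x * pd k (pd m (v l)) x)
    ((((hb.sp n).pd j).pd i).mul (((hb.sp l).pd m).pd k)).cont
    (sp_d3 (hb.sp l') i' j' k').cont).trans ?_
  have h1 := nrm_two_str hb i j n k m l
  have h2 := hb.X l' i' j' k'
  have h3 := hb.s0
  have h4 := hb.X0
  calc _ ≤ (27 * (s * X)) * X := mul_le_mul h1 h2 (nrm_nonneg _) (by positivity)
    _ = _ := by ring

theorem sum5_le {f : Fin 3 → Fin 3 → Fin 3 → Fin 3 → Fin 3 → ℝ} {B : ℝ}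
    (h : ∀ a b c d e, |f a b c d e| ≤ B) : |∑ a, ∑ b, ∑ c, ∑ d, ∑ e, f a b c d e| ≤ 243 * B := by
  have := sum3_le fun a => sum3_le fun b => sum3_le fun c => sum3_le fun d =>
    sum3_le (f := fun e => f a b c d e) (h a b c d)
  linarith

theorem sum3_le3 {f : Fin 3 → Fin 3 → Fin 3 → ℝ} {B : ℝ}
    (h : ∀ a b c, |f a b c| ≤ B) : |∑ a, ∑ b, ∑ c, f a b c| ≤ 27 * B := by
  have := sum3_le fun a => sum3_le fun b => sum3_le (f := fun c => f a b c) (h a b)
  linarith

theorem Q3_le (hb : BS v s X) (hdiv : ∀ x, ∑ i, pd i (v i) x = 0) :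
    |Q3 (cv v v) v| ≤ 20655 * (s * X ^ 2) := by
  have hv := hb.sp
  set T1 : Fin 3 → Fin 3 → Fin 3 → Fin 3 → Fin 3 → ℝ := fun l i j k n =>
    ∫ x in cube, pd i (v n) x * (d3 n j k (v l) x * d3 i j k (v l) x) with hT1
  set T2 : Fin 3 → Fin 3 → Fin 3 → Fin 3 → Fin 3 → ℝ := fun l i j k n =>
    ∫ x in cube, pd j (v n) x * (d3 i n k (v l) x * d3 i j k (v l) x) with hT2
  set T3 : Fin 3 → Fin 3 → Fin 3 → Fin 3 → Fin 3 → ℝ := fun l i j k n =>
    ∫ x in cube, pd k (v n) x * (d3 i j n (v l) x * d3 i j k (v l) x) with hT3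
  set T4 : Fin 3 → Fin 3 → Fin 3 → Fin 3 → Fin 3 → ℝ := fun l i j k n =>
    ∫ x in cube, (pd i (pd j (v n)) x * pd k (pd n (v l)) x) * d3 i j k (v l) x with hT4
  set T5 : Fin 3 → Fin 3 → Fin 3 → Fin 3 → Fin 3 → ℝ := fun l i j k n =>
    ∫ x in cube, (pd i (pd k (v n)) x * pd j (pd n (v l)) x) * d3 i j k (v l) x with hT5
  set T6 : Fin 3 → Fin 3 → Fin 3 → Fin 3 → Fin 3 → ℝ := fun l i j k n =>
    ∫ x in cube, (pd j (pd k (v n)) x * pd i (pd n (v l)) x) * d3 i j k (v l) x with hT6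
  set T7 : Fin 3 → Fin 3 → Fin 3 → Fin 3 → Fin 3 → ℝ := fun l i j k n =>
    ∫ x in cube, pd n (v l) x * (d3 i j k (v l) x * d3 i j k (v n) x) with hT7
  have c2 : ∀ (f : V → ℝ) (_ : SP f) (i k n : Fin 3), pd i (pd k (pd n f)) = d3 i n k f := by
    intro f hf i k n
    unfold d3
    rw [pd_comm hf k n]
  have c1 : ∀ (f : V → ℝ) (_ : SP f) (j k n : Fin 3), pd j (pd k (pd n f)) = d3 n j k f := by
    intro f hf j k n
    unfold d3
    rw [pd_comm hf k n, pd_comm (hf.pd k) j n]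
  have key : ∀ l i j k, (∫ x in cube, d3 i j k (cv v v l) x * d3 i j k (v l) x)
      = (∫ x in cube, cv v (fun l => d3 i j k (v l)) l x * d3 i j k (v l) x)
        + ∑ n, (T1 l i j k n + T2 l i j k n + T3 l i j k n + (T4 l i j k n + T5 l i j k n
          + T6 l i j k n) + T7 l i j k n) := by
    intro l i j k
    have s1 : SP (cv v (fun l => d3 i j k (v l)) l) := sp_cv hv (fun l => sp_d3 (hv l) i j k) l
    have s2 := sp_d3 (hv l) i j k
    have i1 : ∀ n, SP fun x => pd i (v n) x * (d3 n j k (v l) x * d3 i j k (v l) x) := fun n =>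
      ((hv n).pd i).mul ((sp_d3 (hv l) n j k).mul s2)
    have i2 : ∀ n, SP fun x => pd j (v n) x * (d3 i n k (v l) x * d3 i j k (v l) x) := fun n =>
      ((hv n).pd j).mul ((sp_d3 (hv l) i n k).mul s2)
    have i3 : ∀ n, SP fun x => pd k (v n) x * (d3 i j n (v l) x * d3 i j k (v l) x) := fun n =>
      ((hv n).pd k).mul ((sp_d3 (hv l) i j n).mul s2)
    have i4 : ∀ n, SP fun x => (pd i (pd j (v n)) x * pd k (pd n (v l)) x) * d3 i j k (v l) x :=
      fun n => ((((hv n).pd j).pd i).mul (((hv l).pd n).pd k)).mul s2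
    have i5 : ∀ n, SP fun x => (pd i (pd k (v n)) x * pd j (pd n (v l)) x) * d3 i j k (v l) x :=
      fun n => ((((hv n).pd k).pd i).mul (((hv l).pd n).pd j)).mul s2
    have i6 : ∀ n, SP fun x => (pd j (pd k (v n)) x * pd i (pd n (v l)) x) * d3 i j k (v l) x :=
      fun n => ((((hv n).pd k).pd j).mul (((hv l).pd n).pd i)).mul s2
    have i7 : ∀ n, SP fun x => pd n (v l) x * (d3 i j k (v l) x * d3 i j k (v n) x) := fun n =>
      ((hv l).pd n).mul (s2.mul (sp_d3 (hv n) i j k))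
    have e : ∀ x, d3 i j k (cv v v l) x * d3 i j k (v l) x
        = cv v (fun l => d3 i j k (v l)) l x * d3 i j k (v l) x
          + ∑ n, (pd i (v n) x * (d3 n j k (v l) x * d3 i j k (v l) x)
            + pd j (v n) x * (d3 i n k (v l) x * d3 i j k (v l) x)
            + pd k (v n) x * (d3 i j n (v l) x * d3 i j k (v l) x)
            + ((pd i (pd j (v n)) x * pd k (pd n (v l)) x) * d3 i j k (v l) x
            + (pd i (pd k (v n)) x * pd j (pd n (v l)) x) * d3 i j k (v l) x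
            + (pd j (pd k (v n)) x * pd i (pd n (v l)) x) * d3 i j k (v l) x)
            + pd n (v l) x * (d3 i j k (v l) x * d3 i j k (v n) x)) := by
      intro x
      rw [d3_cv hv hv, add_mul, Finset.sum_mul]
      congr 1
      refine Finset.sum_congr rfl fun n _ => ?_
      unfold cm
      rw [c1 _ (hv l) j k n, c2 _ (hv l) i k n]
      change (pd i (v n) x * d3 n j k (v l) x + pd j (v n) x * d3 i n k (v l) x
        + pd k (v n) x * d3 i j n (v l) x + (pd i (pd j (v n)) x * pd k (pd n (v l)) x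
        + pd i (pd k (v n)) x * pd j (pd n (v l)) x + pd j (pd k (v n)) x * pd i (pd n (v l)) x)
        + d3 i j k (v n) x * pd n (v l) x) * d3 i j k (v l) x = _
      ring
    have i123 : ∀ n, SP fun x => pd i (v n) x * (d3 n j k (v l) x * d3 i j k (v l) x)
            + pd j (v n) x * (d3 i n k (v l) x * d3 i j k (v l) x)
            + pd k (v n) x * (d3 i j n (v l) x * d3 i j k (v l) x) := fun n =>
      ((i1 n).add (i2 n)).add (i3 n)
    have i456 : ∀ n, SP fun x => (pd i (pd j (v n)) x * pd k (pd n (v l)) x) * d3 i j k (v l) x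
            + (pd i (pd k (v n)) x * pd j (pd n (v l)) x) * d3 i j k (v l) x
            + (pd j (pd k (v n)) x * pd i (pd n (v l)) x) * d3 i j k (v l) x := fun n =>
      ((i4 n).add (i5 n)).add (i6 n)
    simp_rw [e]
    rw [integral_add (s1.mul s2).int (SP.sum fun n _ => ((i123 n).add (i456 n)).add (i7 n)).int,
      integral_finsetSum _ fun n _ => (((i123 n).add (i456 n)).add (i7 n)).int]
    congr 1
    refine Finset.sum_congr rfl fun n _ => ?_
    rw [integral_add ((i123 n).add (i456 n)).int (i7 n).int,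
      integral_add (i123 n).int (i456 n).int,
      integral_add ((i1 n).add (i2 n)).int (i3 n).int, integral_add (i1 n).int (i2 n).int,
      integral_add ((i4 n).add (i5 n)).int (i6 n).int, integral_add (i4 n).int (i5 n).int]
  have hQ : Q3 (cv v v) v = Tr v v v
      + (((∑ l, ∑ i, ∑ j, ∑ k, ∑ n, T1 l i j k n) + (∑ l, ∑ i, ∑ j, ∑ k, ∑ n, T2 l i j k n)
      + (∑ l, ∑ i, ∑ j, ∑ k, ∑ n, T3 l i j k n)) + ((∑ l, ∑ i, ∑ j, ∑ k, ∑ n, T4 l i j k n)
      + (∑ l, ∑ i, ∑ j, ∑ k, ∑ n, T5 l i j k n) + (∑ l, ∑ i, ∑ j, ∑ k, ∑ n, T6 l i j k n))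
      + ∑ l, ∑ i, ∑ j, ∑ k, ∑ n, T7 l i j k n) := by
    unfold Q3 Tr
    simp_rw [key]
    simp_rw [← Finset.sum_add_distrib]
  have b1 : |∑ l, ∑ i, ∑ j, ∑ k, ∑ n, T1 l i j k n| ≤ 243 * (s * X ^ 2) := by
    have e1 : ∑ l, ∑ i, ∑ j, ∑ k, ∑ n, T1 l i j k n
        = ∑ l, ∑ j, ∑ k, ∑ i, ∑ n, T1 l i j k n := by
      refine Finset.sum_congr rfl fun l _ => ?_
      rw [Finset.sum_comm]
      exact Finset.sum_congr rfl fun j _ => Finset.sum_comm
    rw [e1]
    have := sum3_le3 (f := fun l j k => ∑ i, ∑ n, T1 l i j k n) fun l j k =>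
      sym_le hb (h := fun m => d3 m j k (v l)) (fun m => sp_d3 (hv l) m j k) fun m => hb.X l m j k
    linarith
  have b2 : |∑ l, ∑ i, ∑ j, ∑ k, ∑ n, T2 l i j k n| ≤ 243 * (s * X ^ 2) := by
    have e1 : ∑ l, ∑ i, ∑ j, ∑ k, ∑ n, T2 l i j k n
        = ∑ l, ∑ i, ∑ k, ∑ j, ∑ n, T2 l i j k n :=
      Finset.sum_congr rfl fun l _ => Finset.sum_congr rfl fun i _ => Finset.sum_comm
    rw [e1]
    have := sum3_le3 (f := fun l i k => ∑ j, ∑ n, T2 l i j k n) fun l i k =>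
      sym_le hb (h := fun m => d3 i m k (v l)) (fun m => sp_d3 (hv l) i m k) fun m => hb.X l i m k
    linarith
  have b3 : |∑ l, ∑ i, ∑ j, ∑ k, ∑ n, T3 l i j k n| ≤ 243 * (s * X ^ 2) := by
    have := sum3_le3 (f := fun l i j => ∑ k, ∑ n, T3 l i j k n) fun l i j =>
      sym_le hb (h := fun m => d3 i j m (v l)) (fun m => sp_d3 (hv l) i j m) fun m => hb.X l i j m
    linarith
  have b4 : |∑ l, ∑ i, ∑ j, ∑ k, ∑ n, T4 l i j k n| ≤ 243 * (27 * (s * X ^ 2)) :=
    sum5_le fun l i j k n => abs_int_two hb i j n k n l i j k l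
  have b5 : |∑ l, ∑ i, ∑ j, ∑ k, ∑ n, T5 l i j k n| ≤ 243 * (27 * (s * X ^ 2)) :=
    sum5_le fun l i j k n => abs_int_two hb i k n j n l i j k l
  have b6 : |∑ l, ∑ i, ∑ j, ∑ k, ∑ n, T6 l i j k n| ≤ 243 * (27 * (s * X ^ 2)) :=
    sum5_le fun l i j k n => abs_int_two hb j k n i n l i j k l
  have b7 : |∑ l, ∑ i, ∑ j, ∑ k, ∑ n, T7 l i j k n| ≤ 243 * (s * X ^ 2) := by
    have e1 : ∑ l, ∑ i, ∑ j, ∑ k, ∑ n, T7 l i j k n
        = ∑ i, ∑ j, ∑ k, ∑ n, ∑ l, T7 l i j k n := by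
      rw [Finset.sum_comm]
      refine Finset.sum_congr rfl fun i _ => ?_
      rw [Finset.sum_comm]
      refine Finset.sum_congr rfl fun j _ => ?_
      rw [Finset.sum_comm]
      exact Finset.sum_congr rfl fun k _ => Finset.sum_comm
    rw [e1]
    have := sum3_le3 (f := fun i j k => ∑ n, ∑ l, T7 l i j k n) fun i j k =>
      sym_le hb (h := fun m => d3 i j k (v m)) (fun m => sp_d3 (hv m) i j k) fun m => hb.X m i j k
    linarith
  rw [hQ, Tr_self hv hdiv hv, zero_add]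
  rw [abs_le] at b1 b2 b3 b4 b5 b6 b7 ⊢
  constructor <;> linarith [b1.1, b1.2, b2.1, b2.2, b3.1, b3.2, b4.1, b4.2, b5.1, b5.2, b6.1,
    b6.2, b7.1, b7.2]

end Pool.Agent.TH340.PS
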